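import Pool.Agent.Magi.Types

/-! Composition of types, the converse, and two-cardinal transfer (for `MP_c96495_lc`). -/

open Cardinal Ordinal Set

namespace Magi

/-- The closure in the definition of a type works for any family of at most continuum many
operations. -/
theorem IsType.general {k : ℕ} {g : ℕ → ℕ} (h : IsType k g) {ι : Type} [Nonempty ι]
    (hι : #ι ≤ 𝔠) (G : ι → Set Ordinal.{0} → Ordinal.{0}) (hG : ∀ i x, G i x < ω_ ω) :
    ∃ X : ℕ → Set Ordinal.{0}, Monotone X ∧ (∀ q, X q ⊆ Iio (ω_ ω)) ∧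
      (∀ q i, ∀ x ⊆ X q, x.Countable → G i x ∈ X q) ∧
      (∀ q, ∃ κ, ω_ (k : Ordinal.{0}) ≤ κ ∧ κ < ω_ ((k + 1 : ℕ) : Ordinal.{0}) ∧
        X q ∩ Iio (ω_ ((k + 1 : ℕ) : Ordinal.{0})) = Iio κ) ∧
      ∀ q n : ℕ, n ≤ q →
        #(X q ∩ Iio (ω_ (n : Ordinal.{0})) : Set Ordinal.{0}) = ℵ_ (g n : Ordinal.{1}) := by
  obtain ⟨s, hs⟩ : ∃ s : (ℕ → ℕ) → ι, Function.Surjective s := by
    have h1 : #ι ≤ #(ℕ → ℕ) := hι.trans (by simp)
    obtain ⟨φ⟩ := h1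
    exact ⟨Function.invFun φ, Function.invFun_surjective φ.injective⟩
  obtain ⟨X, h0, h1, h2, h3, h4⟩ := h (fun r => G (s r)) (fun r x => hG _ x)
  refine ⟨X, h0, h1, ?_, h3, h4⟩
  intro q i x hx hxc
  obtain ⟨r, rfl⟩ := hs i
  exact h2 q r x hx hxc

theorem IsType.comp {k : ℕ} {g g' : ℕ → ℕ} (h : IsType k g) (h' : IsType k g')
    (hmono : Monotone g) : IsType k (g' ∘ g) := by
  classical
  intro F hF
  obtain ⟨X1, hX1m, hX1, hX1F, hκ1, hX1n⟩ := h F hF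
  -- bijections
  have hθ : ∀ n q : ℕ, ∃ (θ θ' : Ordinal.{0} → Ordinal.{0}), n ≤ q →
      (∀ γ < ω_ (g n : Ordinal.{0}), θ γ ∈ X1 q ∩ Iio (ω_ (n : Ordinal.{0})) ∧ θ' (θ γ) = γ) ∧
      (∀ δ ∈ X1 q ∩ Iio (ω_ (n : Ordinal.{0})), θ' δ < ω_ (g n : Ordinal.{0}) ∧
        θ (θ' δ) = δ) := by
    intro n q
    by_cases hn : n ≤ q
    · have h1 : #(Iio (ω_ (g n : Ordinal.{0})) : Set Ordinal.{0}) =
          #(X1 q ∩ Iio (ω_ (n : Ordinal.{0})) : Set Ordinal.{0}) := by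
        rw [hX1n q n hn, mk_Iio_omega_nat]
      obtain ⟨φ⟩ := Cardinal.eq.mp h1
      refine ⟨fun γ => if hγ : γ < ω_ (g n : Ordinal.{0}) then (φ ⟨γ, hγ⟩ : Ordinal.{0}) else 0,
        fun δ => if hδ : δ ∈ X1 q ∩ Iio (ω_ (n : Ordinal.{0})) then
          (φ.symm ⟨δ, hδ⟩ : Ordinal.{0}) else 0, fun _ => ⟨?_, ?_⟩⟩
      · intro γ hγ
        simp only [dif_pos hγ]
        refine ⟨(φ ⟨γ, hγ⟩).2, ?_⟩
        rw [dif_pos (φ ⟨γ, hγ⟩).2]
        simp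
      · intro δ hδ
        simp only [dif_pos hδ]
        have h2 : (φ.symm ⟨δ, hδ⟩ : Ordinal.{0}) < ω_ (g n : Ordinal.{0}) := (φ.symm ⟨δ, hδ⟩).2
        refine ⟨h2, ?_⟩
        rw [dif_pos h2]
        simp
    · exact ⟨id, id, fun h => absurd h hn⟩
  choose θ θ' hθ using hθ
  let G : (ℕ → ℕ) ⊕ (ℕ × ℕ × Bool) → Set Ordinal.{0} → Ordinal.{0} := fun i => match i with
    | Sum.inl r => F r
    | Sum.inr (n, q, true) => fun x => clip (θ n q (sSup x))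
    | Sum.inr (n, q, false) => fun x => clip (θ' n q (sSup x))
  have hG : ∀ i x, G i x < ω_ ω := by
    rintro (r | ⟨n, q, b | b⟩) x
    · exact hF r x
    · exact clip_lt _
    · exact clip_lt _
  have hcard : #((ℕ → ℕ) ⊕ (ℕ × ℕ × Bool)) ≤ 𝔠 := by
    have h1 : #(ℕ → ℕ) = 𝔠 := by simp
    have h2 : #(ℕ × ℕ × Bool) ≤ 𝔠 := (Cardinal.mk_le_aleph0).trans Cardinal.aleph0_le_continuum
    rw [Cardinal.mk_sum]
    simp only [Cardinal.lift_id]
    rw [h1]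
    exact (add_le_add le_rfl h2).trans (Cardinal.continuum_add_self).le
  obtain ⟨Y, hYm, hY, hYG, hκ2, hYn⟩ := h'.general hcard G hG
  refine ⟨fun q => X1 q ∩ Y (g q),
    fun q q' hq => Set.inter_subset_inter (hX1m hq) (hYm (hmono hq)),
    fun q => Set.inter_subset_left.trans (hX1 q), ?_, ?_, ?_⟩
  · intro q r x hx hxc
    exact ⟨hX1F q r x (hx.trans Set.inter_subset_left) hxc,
      hYG (g q) (Sum.inl r) x (hx.trans Set.inter_subset_right) hxc⟩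
  · intro q
    obtain ⟨κ1, hκ1, hκ1', hκ1''⟩ := hκ1 q
    obtain ⟨κ2, hκ2, hκ2', hκ2''⟩ := hκ2 (g q)
    refine ⟨min κ1 κ2, le_min hκ1 hκ2, lt_of_le_of_lt (min_le_left _ _) hκ1', ?_⟩
    have h1 : X1 q ∩ Y (g q) ∩ Iio (ω_ ((k + 1 : ℕ) : Ordinal.{0})) =
        (X1 q ∩ Iio (ω_ ((k + 1 : ℕ) : Ordinal.{0}))) ∩
        (Y (g q) ∩ Iio (ω_ ((k + 1 : ℕ) : Ordinal.{0}))) := by
      ext a
      simp only [mem_inter_iff]
      tauto
    rw [h1, hκ1'', hκ2'', Set.Iio_inter_Iio]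
  · intro q n hn
    obtain ⟨hθ1, hθ2⟩ := hθ n q hn
    have h1 : #(X1 q ∩ Y (g q) ∩ Iio (ω_ (n : Ordinal.{0})) : Set Ordinal.{0}) =
        #(Y (g q) ∩ Iio (ω_ (g n : Ordinal.{0})) : Set Ordinal.{0}) := by
      have hfwd : ∀ γ ∈ Y (g q), γ < ω_ (g n : Ordinal.{0}) → θ n q γ ∈ Y (g q) := by
        intro γ hγ hγn
        have h2 : clip (θ n q (sSup {γ})) ∈ Y (g q) := hYG (g q) (Sum.inr (n, q, true)) {γ}
          (Set.singleton_subset_iff.mpr hγ) (Set.countable_singleton _)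
        rw [csSup_singleton, clip_eq (hX1 q (hθ1 γ hγn).1.1)] at h2
        exact h2
      have hbwd : ∀ δ ∈ Y (g q), δ ∈ X1 q ∩ Iio (ω_ (n : Ordinal.{0})) →
          θ' n q δ ∈ Y (g q) := by
        intro δ hδ hδn
        have h2 : clip (θ' n q (sSup {δ})) ∈ Y (g q) := hYG (g q) (Sum.inr (n, q, false)) {δ}
          (Set.singleton_subset_iff.mpr hδ) (Set.countable_singleton _)
        rw [csSup_singleton, clip_eq (lt_trans (hθ2 δ hδn).1 (omega_nat_lt _))] at h2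
        exact h2
      refine Cardinal.mk_congr ⟨fun δ => ⟨θ' n q δ.1, hbwd δ.1 δ.2.1.2 ⟨δ.2.1.1, δ.2.2⟩,
        (hθ2 δ.1 ⟨δ.2.1.1, δ.2.2⟩).1⟩,
        fun γ => ⟨θ n q γ.1, ⟨(hθ1 γ.1 γ.2.2).1.1, hfwd γ.1 γ.2.1 γ.2.2⟩,
          (hθ1 γ.1 γ.2.2).1.2⟩, ?_, ?_⟩
      · intro δ
        exact Subtype.ext (hθ2 δ.1 ⟨δ.2.1.1, δ.2.2⟩).2
      · intro γ
        exact Subtype.ext (hθ1 γ.1 γ.2.2).2
    rw [h1, hYn (g q) (g n) (hmono hn)]
    rfl

theorem Shape.comp {k : ℕ} {g g' : ℕ → ℕ} (h : Shape k g) (h' : Shape k g') :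
    Shape k (g' ∘ g) := by
  obtain ⟨h1, h2, h3, h4⟩ := h
  obtain ⟨h1', h2', h3', h4'⟩ := h'
  refine ⟨?_, h2'.comp h2, ?_, ?_⟩
  · intro n hn
    show g' (g n) = n
    rw [h1 n hn, h1' n hn]
  · intro n
    show g' (g (n + 1)) ≤ g' (g n) + 1
    exact (h2' (h3 n)).trans (h3' (g n))
  · intro K
    obtain ⟨m, hm⟩ := h4' K
    obtain ⟨n, hn⟩ := h4 m
    exact ⟨n, hm.trans (h2' hn)⟩

theorem IsType.transfer {k : ℕ} {g : ℕ → ℕ} (h : IsType k g) {n j : ℕ} (hn : g n = j)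
    (hn1 : g (n + 1) = j + 1) : Transfer n j := by
  intro F hF
  obtain ⟨X, _, hX, hXF, _, hXn⟩ := h F (fun r x => lt_trans (hF r x) (omega_nat_lt _))
  refine ⟨X (n + 1) ∩ Iio (ω_ ((n + 1 : ℕ) : Ordinal.{0})), Set.inter_subset_right, ?_, ?_, ?_⟩
  · intro r x hx hxc
    exact ⟨hXF _ r x (hx.trans Set.inter_subset_left) hxc, hF r x⟩
  · rw [hXn (n + 1) (n + 1) le_rfl, hn1]
  · have h1 : X (n + 1) ∩ Iio (ω_ ((n + 1 : ℕ) : Ordinal.{0})) ∩ Iio (ω_ (n : Ordinal.{0})) =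
        X (n + 1) ∩ Iio (ω_ (n : Ordinal.{0})) := by
      rw [Set.inter_assoc, Set.inter_eq_self_of_subset_right
        (Set.Iio_subset_Iio (omega_mono_nat (Nat.le_succ n)))]
    rw [h1, hXn (n + 1) n (Nat.le_succ n), hn]

theorem exists_gap {k : ℕ} {g : ℕ → ℕ} (hs : Shape k g) (hlt : ∀ n, k < n → g n < n)
    (h : IsType k g) (d : ℕ) :
    ∃ g' : ℕ → ℕ, Shape k g' ∧ IsType k g' ∧ ∀ n, k + d ≤ n → g' n + d ≤ n := by
  induction d with
  | zero =>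
    refine ⟨g, hs, h, ?_⟩
    intro n hn
    rcases Nat.lt_or_ge k n with h1 | h1
    · exact (hlt n h1).le
    · rw [hs.1 n h1]
      omega
  | succ d ih =>
    obtain ⟨g', hs', h', hg'⟩ := ih
    refine ⟨g ∘ g', hs'.comp hs, h'.comp h hs'.2.1, ?_⟩
    intro n hn
    have h1 := hg' n (by omega)
    show g (g' n) + (d + 1) ≤ n
    rcases Nat.lt_or_ge k (g' n) with h2 | h2
    · have := hlt _ h2
      omega
    · rw [hs.1 _ h2]
      omega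

/-- The converse: a type makes `ℵ_ω` a Magidor cardinal. -/
theorem isMagidor_of_isType {k : ℕ} {g : ℕ → ℕ} (hs : Shape k g) (hlt : ∀ n, k < n → g n < n)
    (h : IsType k g) : IsMagidor (ℵ_ ω) := by
  intro f hf
  have hord : (ℵ_ ω : Cardinal.{0}).ord = ω_ ω := Cardinal.ord_aleph _
  rw [hord] at hf ⊢
  obtain ⟨X, hXm, hX, hXF, _, hXn⟩ := h (fun _ => f) (fun _ => hf)
  obtain ⟨hk, hmono, hstep, hunb⟩ := hs
  let A : Set Ordinal.{0} := {a | a < ω_ ω ∧ ∀ q : ℕ, a < ω_ (q : Ordinal.{0}) → a ∈ X q}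
  have hA : A ⊆ Iio (ω_ ω) := fun a ha => ha.1
  have hAX : ∀ q : ℕ, A ∩ Iio (ω_ (q : Ordinal.{0})) ⊆ X q := fun q a ha => ha.1.2 q ha.2
  have hle : #A ≤ ℵ_ (ω : Ordinal.{1}) := by
    have h1 := Cardinal.mk_le_mk_of_subset hA
    rw [mk_Iio_omega] at h1
    simpa using h1
  have hge : ∀ K : ℕ, ℵ_ (K : Ordinal.{1}) ≤ #A := by
    intro K
    classical
    have hex : ∃ n, K + 1 ≤ g n := hunb (K + 1)
    have h5 := Nat.find_spec hex
    have h6 : 0 < Nat.find hex := by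
      rw [Nat.pos_iff_ne_zero]
      intro h0
      rw [h0, hk 0 (Nat.zero_le k)] at h5
      omega
    obtain ⟨n, hn⟩ : ∃ n, Nat.find hex = n + 1 := ⟨Nat.find hex - 1, by omega⟩
    rw [hn] at h5
    have h7 : g n < K + 1 := by
      have := Nat.find_min hex (m := n) (by omega)
      omega
    have h8 := hXn (n + 1) (n + 1) le_rfl
    have h9 := hXn (n + 1) n (Nat.le_succ n)
    have hsub : X (n + 1) ∩ Iio (ω_ ((n + 1 : ℕ) : Ordinal.{0})) ⊆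
        (X (n + 1) ∩ Iio (ω_ (n : Ordinal.{0}))) ∪ A := by
      rintro a ⟨ha, han⟩
      rcases lt_or_ge a (ω_ (n : Ordinal.{0})) with h10 | h10
      · exact Or.inl ⟨ha, h10⟩
      · refine Or.inr ⟨hX _ ha, ?_⟩
        intro q hq
        have : n + 1 ≤ q := by
          by_contra hcon
          push Not at hcon
          exact absurd (lt_of_lt_of_le hq (omega_mono_nat (by omega : q ≤ n)))
            (not_lt.mpr h10)
        exact hXm this ha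
    have h10 := (Cardinal.mk_le_mk_of_subset hsub).trans (Cardinal.mk_union_le _ _)
    rw [h8, h9] at h10
    by_contra hcon
    push Not at hcon
    have h11 : ℵ_ (g n : Ordinal.{1}) ≤ ℵ_ (K : Ordinal.{1}) :=
      Cardinal.aleph_le_aleph.mpr (by exact_mod_cast Nat.lt_succ_iff.mp h7)
    have h12 : ℵ_ (g n : Ordinal.{1}) + #A ≤ ℵ_ (K : Ordinal.{1}) := by
      refine (add_le_add h11 hcon.le).trans ?_
      rw [Cardinal.add_eq_self (Cardinal.aleph0_le_aleph _)]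
    have h13 := h10.trans h12
    rw [Cardinal.aleph_le_aleph] at h13
    have h14 : g (n + 1) ≤ K := by exact_mod_cast h13
    omega
  have hcard : #A = ℵ_ (ω : Ordinal.{1}) := by
    apply le_antisymm hle
    by_contra hcon
    push Not at hcon
    have hinf : ℵ₀ ≤ #A := by simpa using hge 0
    obtain ⟨o, ho⟩ := Cardinal.mem_range_aleph_iff.mpr hinf
    rw [← ho, Cardinal.aleph_lt_aleph] at hcon
    obtain ⟨i, rfl⟩ := Ordinal.lt_omega0.mp hcon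
    have h1 := hge (i + 1)
    rw [← ho, Cardinal.aleph_le_aleph] at h1
    have h2 : i + 1 ≤ i := by exact_mod_cast h1
    omega
  refine ⟨A, hA, ?_, ?_⟩
  · rw [hcard, Cardinal.lift_aleph]; simp
  -- an omitted value
  have hsmall : ∃ ξ < ω_ ((k + 1 : ℕ) : Ordinal.{0}), ∀ q, ξ ∉ X q := by
    by_contra hcon
    push Not at hcon
    have h3 : Iio (ω_ ((k + 1 : ℕ) : Ordinal.{0})) ⊆
        ⋃ q : ℕ, (X q ∩ Iio (ω_ ((k + 1 : ℕ) : Ordinal.{0}))) := by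
      intro a ha
      obtain ⟨q, hq⟩ := hcon a ha
      exact Set.mem_iUnion.mpr ⟨q, hq, ha⟩
    have h1 : ∀ q : ℕ, #(X q ∩ Iio (ω_ ((k + 1 : ℕ) : Ordinal.{0})) : Set Ordinal.{0}) ≤
        ℵ_ (k : Ordinal.{1}) := by
      intro q
      have h2 : #(X q ∩ Iio (ω_ ((k + 1 : ℕ) : Ordinal.{0})) : Set Ordinal.{0}) ≤
          #(X (max q (k + 1)) ∩ Iio (ω_ ((k + 1 : ℕ) : Ordinal.{0})) : Set Ordinal.{0}) :=
        Cardinal.mk_le_mk_of_subset (Set.inter_subset_inter_left _ (hXm (le_max_left _ _)))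
      rw [hXn _ _ (le_max_right q (k + 1))] at h2
      refine h2.trans (Cardinal.aleph_le_aleph.mpr ?_)
      have := hlt (k + 1) (Nat.lt_succ_self k)
      exact_mod_cast Nat.lt_succ_iff.mp this
    have h5 := Cardinal.mk_iUnion_le_lift
      (fun q : ℕ => X q ∩ Iio (ω_ ((k + 1 : ℕ) : Ordinal.{0})))
    simp only [Cardinal.lift_uzero, Cardinal.mk_nat, Cardinal.lift_aleph0] at h5
    have h6 : (⨆ q : ℕ, #(X q ∩ Iio (ω_ ((k + 1 : ℕ) : Ordinal.{0})) : Set Ordinal.{0})) ≤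
        ℵ_ (k : Ordinal.{1}) := ciSup_le' h1
    have h7 : #(Iio (ω_ ((k + 1 : ℕ) : Ordinal.{0})) : Set Ordinal.{0}) ≤
        ℵ_ (k : Ordinal.{1}) := by
      refine (Cardinal.mk_le_mk_of_subset h3).trans (h5.trans ?_)
      calc ℵ₀ * (⨆ q : ℕ, #(X q ∩ Iio (ω_ ((k + 1 : ℕ) : Ordinal.{0})) : Set Ordinal.{0}))
          ≤ ℵ₀ * ℵ_ (k : Ordinal.{1}) := by gcongr
        _ = _ := Cardinal.aleph0_mul_eq (Cardinal.aleph0_le_aleph _)
    rw [mk_Iio_omega_nat, Cardinal.aleph_le_aleph] at h7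
    have h8 : k + 1 ≤ k := by exact_mod_cast h7
    omega
  obtain ⟨ξ, hξ, hξX⟩ := hsmall
  refine ⟨ξ, lt_trans hξ (omega_nat_lt _), ?_⟩
  rintro x hx hxc _ ⟨β, hβ, hxβ⟩ hfx
  obtain ⟨q, hq⟩ := exists_lt_omega_nat hβ
  apply hξX q
  rw [← hfx]
  refine hXF q 0 x ?_ hxc
  intro a ha
  exact hAX q ⟨hx ha, lt_trans (hxβ ha) hq⟩

/-- The two forms of the characterization. -/
theorem characterization :
    (IsMagidor (ℵ_ ω) ↔ ∃ (k : ℕ) (g : ℕ → ℕ), Shape k g ∧ (∀ n, k < n → g n < n) ∧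
      IsType k g) ∧
    (IsMagidor (ℵ_ ω) ↔ ∃ k : ℕ, 1 ≤ k ∧ (𝔠 : Cardinal.{0}) ≤ ℵ_ (k : Ordinal.{0}) ∧
      ∀ d : ℕ, ∃ g : ℕ → ℕ, Shape k g ∧ IsType k g ∧ ∀ n, k + d ≤ n → g n + d ≤ n) := by
  refine ⟨⟨?_, ?_⟩, ⟨?_, ?_⟩⟩
  · intro hM
    obtain ⟨k, g, _, _, hs, hlt, ht⟩ := exists_type hM
    exact ⟨k, g, hs, hlt, ht⟩
  · rintro ⟨k, g, hs, hlt, ht⟩
    exact isMagidor_of_isType hs hlt ht
  · intro hM
    obtain ⟨k, g, hk, hc, hs, hlt, ht⟩ := exists_type hM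
    exact ⟨k, hk, hc, exists_gap hs hlt ht⟩
  · rintro ⟨k, _, _, h⟩
    obtain ⟨g, hs, ht, hg⟩ := h 1
    exact isMagidor_of_isType hs (fun n hn => by have := hg n (by omega); omega) ht

/-- Two-cardinal transfers of arbitrarily large gap. -/
theorem transfers (hM : IsMagidor (ℵ_ ω)) :
    ∃ k : ℕ, 1 ≤ k ∧ (𝔠 : Cardinal.{0}) ≤ ℵ_ (k : Ordinal.{0}) ∧
      ∀ j d : ℕ, k ≤ j → ∃ n, j + d ≤ n ∧ Transfer n j := by
  obtain ⟨k, g, hk, hc, hs, hlt, ht⟩ := exists_type hM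
  refine ⟨k, hk, hc, ?_⟩
  intro j d hj
  obtain ⟨g', hs', ht', hg'⟩ := exists_gap hs hlt ht d
  obtain ⟨h1, h2, h3, h4⟩ := hs'
  classical
  have hex : ∃ n, j + 1 ≤ g' n := h4 (j + 1)
  have h5 := Nat.find_spec hex
  have h6 : 0 < Nat.find hex := by
    rw [Nat.pos_iff_ne_zero]
    intro h0
    rw [h0, h1 0 (Nat.zero_le k)] at h5
    omega
  obtain ⟨n, hn⟩ : ∃ n, Nat.find hex = n + 1 := ⟨Nat.find hex - 1, by omega⟩
  rw [hn] at h5
  have h7 : g' n < j + 1 := by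
    have := Nat.find_min hex (m := n) (by omega)
    omega
  have h8 := h3 n
  have h9 : g' n = j := by omega
  have h10 : g' (n + 1) = j + 1 := by omega
  refine ⟨n, ?_, ht'.transfer h9 h10⟩
  rcases Nat.lt_or_ge n (k + d) with h11 | h11
  · exfalso
    have h12 : g' (n + 1) ≤ g' (k + d) := h2 (by omega)
    have h13 := hg' (k + d) le_rfl
    omega
  · have := hg' n h11
    omega

end Magi
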