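import Mathlib

/-! Definitions for `MP_c96495_lc`: Magidor cardinals, types, two-cardinal transfer. -/

open Cardinal Ordinal Set

namespace Magi

/-- `κ` is a Magidor cardinal: for every `f` from the bounded countably infinite subsets of `κ`
to `κ` there is `A ⊆ κ` of cardinality `κ` such that `f` omits a value on the bounded countably
infinite subsets of `A`. (Ordinals live in `Type 1`, hence the lift; `f` is a total function of
sets of ordinals, only its values on the bounded countably infinite sets matter.) -/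
def IsMagidor (κ : Cardinal.{0}) : Prop :=
  ∀ f : Set Ordinal.{0} → Ordinal.{0}, (∀ x, f x < κ.ord) →
    ∃ A : Set Ordinal.{0}, A ⊆ Iio κ.ord ∧ #A = Cardinal.lift.{1} κ ∧
      ∃ ξ < κ.ord, ∀ x ⊆ A, x.Countable → x.Infinite → (∃ β < κ.ord, x ⊆ Iio β) → f x ≠ ξ

/-- The pair `k`, `g` is a type: for every family `F` of continuum many operations on the countable
subsets of `ω_ω` there is an increasing sequence `X_0 ⊆ X_1 ⊆ …` of subsets of `ω_ω`, each closed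
under all the operations, such that `|X_q ∩ ω_n| = ℵ_{g(n)}` for all `n ≤ q`, and
`X_q ∩ ω_{k+1}` is an ordinal in `[ω_k, ω_{k+1})` for all `q`. -/
def IsType (k : ℕ) (g : ℕ → ℕ) : Prop :=
  ∀ F : (ℕ → ℕ) → Set Ordinal.{0} → Ordinal.{0}, (∀ r x, F r x < ω_ ω) →
    ∃ X : ℕ → Set Ordinal.{0}, Monotone X ∧ (∀ q, X q ⊆ Iio (ω_ ω)) ∧
      (∀ q r, ∀ x ⊆ X q, x.Countable → F r x ∈ X q) ∧
      (∀ q, ∃ κ, ω_ (k : Ordinal.{0}) ≤ κ ∧ κ < ω_ ((k + 1 : ℕ) : Ordinal.{0}) ∧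
        X q ∩ Iio (ω_ ((k + 1 : ℕ) : Ordinal.{0})) = Iio κ) ∧
      ∀ q n : ℕ, n ≤ q →
        #(X q ∩ Iio (ω_ (n : Ordinal.{0})) : Set Ordinal.{0}) = ℵ_ (g n : Ordinal.{1})

/-- The shape of `g`: the identity up to `k`, nondecreasing, steps at most one, unbounded. -/
def Shape (k : ℕ) (g : ℕ → ℕ) : Prop :=
  (∀ n ≤ k, g n = n) ∧ Monotone g ∧ (∀ n, g (n + 1) ≤ g n + 1) ∧ ∀ K, ∃ n, K ≤ g n

/-- The two-cardinal transfer from `ℵ_{n+1}, ℵ_n` to `ℵ_{j+1}, ℵ_j` for algebras with continuum many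
operations on countable subsets. -/
def Transfer (n j : ℕ) : Prop :=
  ∀ F : (ℕ → ℕ) → Set Ordinal.{0} → Ordinal.{0},
    (∀ r x, F r x < ω_ ((n + 1 : ℕ) : Ordinal.{0})) →
    ∃ X : Set Ordinal.{0}, X ⊆ Iio (ω_ ((n + 1 : ℕ) : Ordinal.{0})) ∧
      (∀ r, ∀ x ⊆ X, x.Countable → F r x ∈ X) ∧
      #X = ℵ_ ((j + 1 : ℕ) : Ordinal.{1}) ∧
      #(X ∩ Iio (ω_ (n : Ordinal.{0})) : Set Ordinal.{0}) = ℵ_ (j : Ordinal.{1})

/-- A weak form of the square principle for `ℵ_n` with `ℵ_m` guesses: to every limit ordinal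
`α < ω_{n+1}` there belongs a nonempty set `S α` of at most `ℵ_m` unbounded subsets of `α`, all of
order type at most `ω_n`, such that `C ∩ β ∈ S β` whenever `C ∈ S α` and `β < α` is the supremum
of a strictly increasing sequence of type `ω` of elements of `C`. -/
def WeakSq (n m : ℕ) : Prop :=
  ∃ S : Ordinal.{0} → Set (Set Ordinal.{0}),
    ∀ α < ω_ ((n + 1 : ℕ) : Ordinal.{0}), Order.IsSuccLimit α →
      (S α).Nonempty ∧ #(S α) ≤ ℵ_ (m : Ordinal.{1}) ∧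
      ∀ C ∈ S α, C ⊆ Iio α ∧ (∀ β < α, ∃ γ ∈ C, β ≤ γ) ∧
        Ordinal.type ((· < ·) : C → C → Prop) ≤ Ordinal.lift.{1} (ω_ (n : Ordinal.{0})) ∧
        ∀ β < α, (∃ c : ℕ → Ordinal.{0}, StrictMono c ∧ (∀ i, c i ∈ C) ∧ β = ⨆ i, c i) →
          C ∩ Iio β ∈ S β

end Magi
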