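import Pool.Agent.Magi.Pick
import Pool.Agent.Magi.Defs

/-! Magidor cardinals and the hulls of a Magidor `ℵ_ω` (for `MP_c96495_lc`). -/

open Cardinal Ordinal Set

namespace Magi

/-- Terms with countable arity over the index type `ι`. -/
inductive Tm (ι : Type) : Type
  | leaf : ℕ → Tm ι
  | node : ι → (ℕ → Tm ι) → Tm ι

namespace Tm

variable {ι : Type}

/-- Evaluation of a term. -/
noncomputable def ev (G : ι → Set Ordinal.{0} → Ordinal.{0}) (e : ℕ → Ordinal.{0}) :
    Tm ι → Ordinal.{0}
  | leaf n => e n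
  | node i c => G i (Set.range fun n => (c n).ev G e)

/-- The arities. -/
abbrev Ar (ι : Type) : ℕ ⊕ ι → Type := Sum.elim (fun _ => Empty) (fun _ => ℕ)

/-- Terms as elements of a W-type. -/
def toW : Tm ι → WType (Ar ι)
  | leaf n => ⟨Sum.inl n, fun x => Empty.elim x⟩
  | node i c => ⟨Sum.inr i, fun n => toW (c n)⟩

theorem toW_injective : Function.Injective (toW (ι := ι)) := by
  intro a
  induction a with
  | leaf n =>
    intro b h
    cases b with
    | leaf m =>
      simp only [toW, WType.mk.injEq, Sum.inl.injEq] at h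
      rw [h.1]
    | node i c =>
      simp only [toW, WType.mk.injEq, reduceCtorEq, false_and] at h
  | node i c ih =>
    intro b h
    cases b with
    | leaf m =>
      simp only [toW, WType.mk.injEq, reduceCtorEq, false_and] at h
    | node j d =>
      simp only [toW, WType.mk.injEq, Sum.inr.injEq] at h
      obtain ⟨h1, h2⟩ := h
      subst h1
      have h3 := eq_of_heq h2
      congr 1
      funext n
      exact ih n (congrFun h3 n)

theorem mk_le (hι : #ι ≤ 𝔠) : #(Tm ι) ≤ 𝔠 := by
  refine (Cardinal.mk_le_of_injective toW_injective).trans ?_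
  refine WType.cardinalMk_le_of_le' ?_
  have hterm : ∀ a : ℕ ⊕ ι, 𝔠 ^ Cardinal.lift.{0, 0} #(Ar ι a) ≤ 𝔠 := by
    rintro (n | i)
    · simpa [Ar] using Cardinal.one_le_aleph0.trans Cardinal.aleph0_le_continuum
    · simp [Ar]
  calc Cardinal.sum (fun a : ℕ ⊕ ι => 𝔠 ^ Cardinal.lift.{0, 0} #(Ar ι a))
      ≤ Cardinal.sum (fun _ : ℕ ⊕ ι => 𝔠) := Cardinal.sum_le_sum _ _ hterm
    _ = #(ℕ ⊕ ι) * 𝔠 := by simp
    _ ≤ 𝔠 * 𝔠 := by
      gcongr
      rw [Cardinal.mk_sum]
      simp only [Cardinal.mk_nat, Cardinal.lift_id]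
      exact (add_le_add Cardinal.aleph0_le_continuum hι).trans
        (Cardinal.continuum_add_self).le
    _ = 𝔠 := Cardinal.continuum_mul_self

theorem ev_lt {G : ι → Set Ordinal.{0} → Ordinal.{0}} {e : ℕ → Ordinal.{0}} {l : Ordinal.{0}}
    (hG : ∀ i x, G i x < l) (he : ∀ n, e n < l) (w : Tm ι) : w.ev G e < l := by
  cases w with
  | leaf n => exact he n
  | node i c => exact hG i _

theorem ev_mono {G : ι → Set Ordinal.{0} → Ordinal.{0}} {e e' : ℕ → Ordinal.{0}}
    (h : Set.range e ⊆ Set.range e') (w : Tm ι) : ∃ w' : Tm ι, w'.ev G e' = w.ev G e := by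
  induction w with
  | leaf n =>
    obtain ⟨m, hm⟩ := h ⟨n, rfl⟩
    exact ⟨leaf m, hm⟩
  | node i c ih =>
    choose c' hc' using ih
    refine ⟨node i c', ?_⟩
    simp only [ev]
    congr 1
    exact congrArg Set.range (funext hc')

end Tm

open Classical in
/-- A chosen enumeration of a nonempty countable set. -/
noncomputable def en (x : Set Ordinal.{0}) : ℕ → Ordinal.{0} :=
  if h : ∃ f : ℕ → Ordinal.{0}, x = Set.range f then h.choose else fun _ => 0

theorem range_en {x : Set Ordinal.{0}} (hc : x.Countable) (hn : x.Nonempty) :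
    Set.range (en x) = x := by
  have h := hc.exists_eq_range hn
  rw [en, dif_pos h]
  exact h.choose_spec.symm

/-- The part of `y` above which `y` has order type at most `ω`. -/
def lastPart (y : Set Ordinal.{0}) : Set Ordinal.{0} := {a ∈ y | ∀ b ∈ y, (y ∩ Icc a b).Finite}

theorem exists_strictMono {C : Set Ordinal.{0}} (hC : C.Infinite) :
    ∃ c : ℕ → Ordinal.{0}, StrictMono c ∧ ∀ n, c n ∈ C := by
  have := hC.to_subtype
  let u : ℕ → Ordinal.{0} := fun n => (Infinite.natEmbedding C n : Ordinal.{0})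
  have huC : ∀ n, u n ∈ C := fun n => (Infinite.natEmbedding C n).2
  have hui : Function.Injective u := fun n m h =>
    (Infinite.natEmbedding C).injective (Subtype.ext h)
  obtain ⟨g, hg | hg⟩ := exists_increasing_or_nonincreasing_subseq (· < ·) u
  · exact ⟨fun n => u (g n), fun m n h => hg m n h, fun n => huC _⟩
  · exfalso
    have hdec : ∀ n, u (g (n + 1)) < u (g n) := by
      intro n
      have h1 := hg n (n + 1) (Nat.lt_succ_self n)
      have h2 : u (g n) ≠ u (g (n + 1)) := by
        intro h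
        have := g.injective (hui h)
        omega
      exact lt_of_le_of_ne (not_lt.mp h1) (Ne.symm h2)
    have hwf : WellFounded ((· < ·) : Ordinal.{0} → Ordinal.{0} → Prop) := wellFounded_lt
    exact RelEmbedding.not_wellFounded (RelEmbedding.natGT (fun n => u (g n)) hdec) hwf

theorem mk_Iio_omega (n : Ordinal.{0}) :
    #(Iio (ω_ n) : Set Ordinal.{0}) = ℵ_ (Ordinal.lift.{1} n) := by
  rw [Cardinal.mk_Iio_ordinal, Ordinal.card_omega, Cardinal.lift_aleph]

theorem mk_Iio_omega_nat (n : ℕ) :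
    #(Iio (ω_ (n : Ordinal.{0})) : Set Ordinal.{0}) = ℵ_ (n : Ordinal.{1}) := by
  rw [mk_Iio_omega]; simp

theorem exists_lt_omega_nat {a : Ordinal.{0}} (h : a < ω_ ω) : ∃ n : ℕ, a < ω_ (n : Ordinal.{0}) := by
  have hlim : Order.IsSuccLimit (ω : Ordinal.{0}) := Ordinal.isSuccLimit_omega0
  obtain ⟨b, hb, hab⟩ := (Ordinal.isNormal_omega.lt_iff_exists_lt hlim).mp h
  obtain ⟨n, rfl⟩ := Ordinal.lt_omega0.mp hb
  exact ⟨n, hab⟩

end Magi
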