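import Pool.Agent.Magi.Hull

/-! The hull lemma for a Magidor `ℵ_ω` (for `MP_c96495_lc`). -/

open Cardinal Ordinal Set

namespace Magi

theorem omega_nat_lt (n : ℕ) : ω_ (n : Ordinal.{0}) < ω_ ω :=
  Ordinal.omega_lt_omega.mpr (Ordinal.natCast_lt_omega0 n)

theorem omega_mono_nat {n m : ℕ} (h : n ≤ m) : ω_ (n : Ordinal.{0}) ≤ ω_ (m : Ordinal.{0}) :=
  Ordinal.omega_le_omega.mpr (by exact_mod_cast h)

theorem exists_slab {A : Set Ordinal.{0}} (hA : A ⊆ Iio (ω_ ω)) (hc : #A = ℵ_ (ω : Ordinal.{1}))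
    (q : ℕ) :
    ∃ q' : ℕ, (A ∩ Ico (ω_ (q : Ordinal.{0})) (ω_ (q' : Ordinal.{0}))).Infinite := by
  by_contra hcon
  push Not at hcon
  have hsub : A ⊆ Iio (ω_ (q : Ordinal.{0})) ∪
      ⋃ q' : ℕ, (A ∩ Ico (ω_ (q : Ordinal.{0})) (ω_ (q' : Ordinal.{0}))) := by
    intro a ha
    rcases lt_or_ge a (ω_ (q : Ordinal.{0})) with h | h
    · exact Or.inl h
    · obtain ⟨n, hn⟩ := exists_lt_omega_nat (hA ha)
      exact Or.inr (Set.mem_iUnion.mpr ⟨n, ha, h, hn⟩)
  have hcount : (⋃ q' : ℕ, (A ∩ Ico (ω_ (q : Ordinal.{0})) (ω_ (q' : Ordinal.{0})))).Countable :=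
    Set.countable_iUnion fun q' => (hcon q').countable
  have h1 : #A ≤ ℵ_ (q : Ordinal.{1}) + ℵ₀ := by
    refine (Cardinal.mk_le_mk_of_subset hsub).trans ((Cardinal.mk_union_le _ _).trans ?_)
    rw [mk_Iio_omega_nat]
    gcongr
    exact Cardinal.le_aleph0_iff_set_countable.mpr hcount
  have h2 : ℵ_ (q : Ordinal.{1}) + ℵ₀ = ℵ_ (q : Ordinal.{1}) :=
    Cardinal.add_eq_left (Cardinal.aleph0_le_aleph _) (Cardinal.aleph0_le_aleph _)
  rw [h2, hc] at h1
  exact absurd h1 (not_le.mpr (Cardinal.aleph_lt_aleph.mpr (Ordinal.natCast_lt_omega0 q)))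

theorem lastPart_eq {x : Set Ordinal.{0}} {b c : ℕ → Ordinal.{0}} {β γ : Ordinal.{0}}
    (hx : x ⊆ Iio β) (hb : StrictMono b) (hbβ : ∀ n, β ≤ b n) (hbγ : ∀ n, b n < γ)
    (hβγ : β ≤ γ) (hc : StrictMono c) (hcγ : ∀ n, γ ≤ c n) {z : Set Ordinal.{0}}
    (hz : z ⊆ Set.range c) (hzn : z.Nonempty) :
    lastPart (x ∪ Set.range b ∪ z) = z := by
  have hlow : ∀ a ∈ x ∪ Set.range b, a < γ := by
    rintro a (ha | ⟨n, rfl⟩)
    · exact lt_of_lt_of_le (hx ha) hβγ
    · exact hbγ n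
  have hhigh : ∀ a ∈ z, γ ≤ a := by
    intro a ha
    obtain ⟨n, rfl⟩ := hz ha
    exact hcγ n
  apply Set.Subset.antisymm
  · rintro a ⟨ha, hfin⟩
    rcases ha with ha | ha
    · exfalso
      obtain ⟨c0, hc0⟩ := hzn
      have h1 := hfin c0 (Or.inr hc0)
      have hγc : γ ≤ c0 := hhigh c0 hc0
      obtain ⟨k, hk⟩ : ∃ k, ∀ n, k ≤ n → a ≤ b n := by
        rcases ha with ha | ⟨k, rfl⟩
        · exact ⟨0, fun n _ => ((hx ha).le.trans (hbβ n))⟩
        · exact ⟨k, fun n hn => hb.monotone hn⟩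
      have hinf : (Set.range fun n => b (k + n)).Infinite :=
        Set.infinite_range_of_injective (fun n m h => by
          have := hb.injective h; omega)
      apply hinf
      refine h1.subset ?_
      rintro _ ⟨n, rfl⟩
      exact ⟨Or.inl (Or.inr ⟨_, rfl⟩), hk _ (Nat.le_add_right _ _), ((hbγ _).le.trans hγc)⟩
    · exact ha
  · intro a ha
    refine ⟨Or.inr ha, ?_⟩
    intro d hd
    rcases hd with hd | hd
    · have : (x ∪ Set.range b ∪ z) ∩ Icc a d = ∅ := by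
        ext e
        simp only [mem_inter_iff, mem_Icc, mem_empty_iff_false, iff_false, not_and]
        intro _ h1
        exact not_le.mpr (lt_of_lt_of_le (hlow d hd) ((hhigh a ha).trans h1))
      rw [this]
      exact Set.finite_empty
    · obtain ⟨m, rfl⟩ := hz hd
      refine ((Set.finite_Iic m).image c).subset ?_
      rintro e ⟨he, h1, h2⟩
      have heγ : γ ≤ e := (hhigh a ha).trans h1
      rcases he with he | he
      · exact absurd (hlow e he) (not_lt.mpr heγ)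
      · obtain ⟨n, rfl⟩ := hz he
        exact ⟨n, hc.le_iff_le.mp h2, rfl⟩

/-- **The hull lemma.** -/
theorem exists_hull (hM : IsMagidor (ℵ_ ω)) {ι : Type} (hι : #ι ≤ 𝔠)
    (G : ι → Set Ordinal.{0} → Ordinal.{0}) (hG : ∀ i x, G i x < ω_ ω) :
    ∃ (A : Set Ordinal.{0}) (M : ℕ → Set Ordinal.{0}), A ⊆ Iio (ω_ ω) ∧
      #A = ℵ_ (ω : Ordinal.{1}) ∧ Monotone M ∧ (∀ q, M q ⊆ Iio (ω_ ω)) ∧
      (∀ q : ℕ, A ∩ Iio (ω_ (q : Ordinal.{0})) ⊆ M q) ∧
      (∀ q i x, x ⊆ M q → x.Countable → x.Nonempty → G i x ∈ M q) ∧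
      ∃ ξ < ω_ ω, ∀ q, ξ ∉ M q := by
  classical
  obtain ⟨f0, hf0⟩ := exists_pick Ordinal.{0}
  obtain ⟨s, hs⟩ : ∃ s : (ℕ → ℕ) → Tm ι, Function.Surjective s := by
    have h1 : #(Tm ι) ≤ #(ℕ → ℕ) := (Tm.mk_le hι).trans (by simp)
    obtain ⟨φ⟩ := h1
    have : Nonempty (Tm ι) := ⟨Tm.leaf 0⟩
    exact ⟨Function.invFun φ, Function.invFun_surjective φ.injective⟩
  let v : Set Ordinal.{0} → Ordinal.{0} := fun y =>
    (s (f0 (lastPart y))).ev G (en (y \ lastPart y))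
  let f : Set Ordinal.{0} → Ordinal.{0} := fun y => if v y < ω_ ω then v y else 0
  have hpos : (0 : Ordinal.{0}) < ω_ ω := Ordinal.omega_pos _
  have hord : (ℵ_ ω : Cardinal.{0}).ord = ω_ ω := Cardinal.ord_aleph _
  have hf : ∀ y, f y < (ℵ_ ω : Cardinal.{0}).ord := by
    intro y
    rw [hord]
    by_cases h : v y < ω_ ω
    · simp only [f, if_pos h]; exact h
    · simp only [f, if_neg h]; exact hpos
  obtain ⟨A, hA, hcard, ξ, hξ, hom⟩ := hM f hf
  rw [hord] at hA hξ hom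
  have hcard' : #A = ℵ_ (ω : Ordinal.{1}) := by
    rw [hcard, Cardinal.lift_aleph]; simp
  let M : ℕ → Set Ordinal.{0} := fun q =>
    {a | ∃ x : Set Ordinal.{0}, x ⊆ A ∩ Iio (ω_ (q : Ordinal.{0})) ∧ x.Countable ∧ x.Nonempty ∧
      ∃ w : Tm ι, w.ev G (en x) = a}
  refine ⟨A, M, hA, hcard', ?_, ?_, ?_, ?_, ξ, hξ, ?_⟩
  · -- monotone
    rintro q q' hqq a ⟨x, hx, h1, h2, h3⟩
    refine ⟨x, hx.trans (Set.inter_subset_inter_right _ ?_), h1, h2, h3⟩
    exact Set.Iio_subset_Iio (omega_mono_nat hqq)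
  · -- bounded by `ω_ω`
    rintro q a ⟨x, hx, h1, h2, w, rfl⟩
    apply Tm.ev_lt hG
    intro n
    have : en x n ∈ x := by
      rw [← range_en h1 h2]
      rw [range_en h1 h2]
      have := Set.mem_range_self (f := en x) n
      rwa [range_en h1 h2] at this
    exact hA (hx this).1
  · -- contains `A ∩ ω_q`
    rintro q a ha
    refine ⟨{a}, Set.singleton_subset_iff.mpr ha, Set.countable_singleton _,
      Set.singleton_nonempty _, Tm.leaf 0, ?_⟩
    have h1 : en {a} 0 ∈ Set.range (en {a}) := ⟨0, rfl⟩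
    rw [range_en (Set.countable_singleton _) (Set.singleton_nonempty _)] at h1
    exact h1
  · -- closed
    intro q i x hx hxc hxn
    obtain ⟨u, rfl⟩ := hxc.exists_eq_range hxn
    have hu : ∀ n, ∃ y : Set Ordinal.{0}, y ⊆ A ∩ Iio (ω_ (q : Ordinal.{0})) ∧ y.Countable ∧
        y.Nonempty ∧ ∃ w : Tm ι, w.ev G (en y) = u n := fun n => hx ⟨n, rfl⟩
    choose y hy1 hy2 hy3 hy4 using hu
    have hYc : (⋃ n, y n).Countable := Set.countable_iUnion hy2
    have hYn : (⋃ n, y n).Nonempty := by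
      obtain ⟨a, ha⟩ := hy3 0
      exact ⟨a, Set.mem_iUnion.mpr ⟨0, ha⟩⟩
    have hw : ∀ n, ∃ w : Tm ι, w.ev G (en (⋃ n, y n)) = u n := by
      intro n
      obtain ⟨w, hw⟩ := hy4 n
      obtain ⟨w', hw'⟩ := Tm.ev_mono (G := G) (e := en (y n)) (e' := en (⋃ n, y n)) (by
        rw [range_en (hy2 n) (hy3 n), range_en hYc hYn]
        exact Set.subset_iUnion y n) w
      exact ⟨w', hw'.trans hw⟩
    choose w hw using hw
    refine ⟨⋃ n, y n, Set.iUnion_subset hy1, hYc, hYn, Tm.node i w, ?_⟩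
    simp only [Tm.ev]
    congr 1
    exact congrArg Set.range (funext hw)
  · -- omits `ξ`
    rintro q ⟨x, hx, hxc, hxn, w, hw⟩
    obtain ⟨q1, hq1⟩ := exists_slab hA hcard' q
    obtain ⟨b, hb, hbA⟩ := exists_strictMono hq1
    obtain ⟨q2, hq2⟩ := exists_slab hA hcard' q1
    obtain ⟨c, hc, hcA⟩ := exists_strictMono hq2
    have hqq : ω_ (q : Ordinal.{0}) ≤ ω_ (q1 : Ordinal.{0}) :=
      ((hbA 0).2.1).trans (hbA 0).2.2.le
    have hxb : (x ∪ Set.range b).Countable := hxc.union (Set.countable_range b)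
    have hxbn : (x ∪ Set.range b).Nonempty := hxn.mono Set.subset_union_left
    obtain ⟨w', hw'⟩ := Tm.ev_mono (G := G) (e := en x) (e' := en (x ∪ Set.range b)) (by
      rw [range_en hxc hxn, range_en hxb hxbn]
      exact Set.subset_union_left) w
    obtain ⟨r, hr⟩ := hs w'
    obtain ⟨z, hz, hzi, hzc, hzr⟩ := hf0 (Set.range c)
      (Set.infinite_range_of_injective hc.injective) r
    have hlast : lastPart (x ∪ Set.range b ∪ z) = z :=
      lastPart_eq (fun a ha => (hx ha).2) hb (fun n => (hbA n).2.1) (fun n => (hbA n).2.2) hqq hc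
        (fun n => (hcA n).2.1) hz hzi.nonempty
    have hdiff : (x ∪ Set.range b ∪ z) \ z = x ∪ Set.range b := by
      apply Set.Subset.antisymm
      · rintro a ⟨ha | ha, hn⟩
        · exact ha
        · exact absurd ha hn
      · intro a ha
        refine ⟨Or.inl ha, ?_⟩
        intro haz
        obtain ⟨n, rfl⟩ := hz haz
        have h1 : ω_ (q1 : Ordinal.{0}) ≤ c n := (hcA n).2.1
        rcases ha with ha | ⟨m, hm⟩
        · exact absurd ((hx ha).2) (not_lt.mpr (hqq.trans h1))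
        · rw [← hm] at h1
          exact absurd (hbA m).2.2 (not_lt.mpr h1)
    have hval : v (x ∪ Set.range b ∪ z) = ξ := by
      show (s (f0 (lastPart (x ∪ Set.range b ∪ z)))).ev G
        (en ((x ∪ Set.range b ∪ z) \ lastPart (x ∪ Set.range b ∪ z))) = ξ
      rw [hlast, hzr, hr, hdiff, hw', hw]
    have hfval : f (x ∪ Set.range b ∪ z) = ξ := by
      show (if v (x ∪ Set.range b ∪ z) < ω_ ω then v (x ∪ Set.range b ∪ z) else 0) = ξ
      rw [hval, if_pos hξ]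
    refine hom (x ∪ Set.range b ∪ z) ?_ (hxb.union hzc) (hzi.mono Set.subset_union_right)
      ⟨ω_ (q2 : Ordinal.{0}), omega_nat_lt q2, ?_⟩ hfval
    · rintro a ((ha | ⟨n, rfl⟩) | ha)
      · exact (hx ha).1
      · exact (hbA n).1
      · obtain ⟨n, rfl⟩ := hz ha
        exact (hcA n).1
    · have hq12 : ω_ (q1 : Ordinal.{0}) ≤ ω_ (q2 : Ordinal.{0}) :=
        ((hcA 0).2.1).trans (hcA 0).2.2.le
      rintro a ((ha | ⟨n, rfl⟩) | ha)
      · exact lt_of_lt_of_le (hx ha).2 (hqq.trans hq12)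
      · exact lt_of_lt_of_le (hbA n).2.2 hq12
      · obtain ⟨n, rfl⟩ := hz ha
        exact (hcA n).2.2

end Magi
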