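import Mathlib

/-! Combinatorics for `MP_c96495_lc`: a colouring of the countable sets which takes every value
on the subsets of every infinite set. -/

open Cardinal Set

namespace Magi

universe u

/-- Injective choice: if each `C i` has at least as many elements as the index type, then
distinct representatives exist. -/
theorem exists_inj_choice {I β : Type u} (C : I → Set β) (h : ∀ i, #I ≤ #(C i)) :
    ∃ c : I → β, Function.Injective c ∧ ∀ i, c i ∈ C i := by
  classical
  obtain ⟨r, wo, hr⟩ := Cardinal.exists_ord_eq I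
  have key : ∀ (i : I) (prev : ∀ j, r j i → β), ∃ b, b ∈ C i ∧ ∀ j (hj : r j i), prev j hj ≠ b := by
    intro i prev
    by_contra hcon
    push Not at hcon
    have hlt : #{j // r j i} < #I := by
      have := Cardinal.card_typein_lt (r := r) i hr
      rwa [Ordinal.card_typein] at this
    have hsurj : #(C i) ≤ #{j // r j i} := by
      have : ∀ b : C i, ∃ j : {j // r j i}, prev j.1 j.2 = b.1 := by
        intro b
        obtain ⟨j, hj, hb⟩ := hcon b.1 b.2
        exact ⟨⟨j, hj⟩, hb⟩
      choose φ hφ using this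
      refine Cardinal.mk_le_of_injective (f := φ) ?_
      intro b b' hbb
      apply Subtype.ext
      rw [← hφ b, ← hφ b', hbb]
    exact absurd (lt_of_le_of_lt (h i) (lt_of_le_of_lt hsurj hlt)) (lt_irrefl _)
  choose G hG1 hG2 using key
  let c : I → β := wo.toIsWellFounded.wf.fix (fun i prev => G i prev)
  have hc : ∀ i, c i = G i (fun j _ => c j) := fun i => wo.toIsWellFounded.wf.fix_eq _ i
  refine ⟨c, ?_, ?_⟩
  · intro i j hij
    rcases trichotomous_of r i j with hlt | heq | hgt
    · exfalso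
      have := hG2 j (fun j _ => c j) i hlt
      rw [← hc j] at this
      exact this hij
    · exact heq
    · exfalso
      have := hG2 i (fun j _ => c j) j hgt
      rw [← hc i] at this
      exact this hij.symm
  · intro i
    rw [hc i]
    exact hG1 i _

/-- Every infinite set of naturals has continuum many infinite subsets. -/
theorem continuum_le_infinite_subsets (t : Set ℕ) (ht : t.Infinite) :
    𝔠 ≤ #({z : Set ℕ | z ⊆ t ∧ z.Infinite} : Set (Set ℕ)) := by
  classical
  obtain ⟨e, he, hinj⟩ : ∃ e : ℕ → ℕ, (∀ n, e n ∈ t) ∧ Function.Injective e := by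
    have := ht.to_subtype
    let e0 := Infinite.natEmbedding t
    exact ⟨fun n => (e0 n : ℕ), fun n => (e0 n).2, fun n m h => e0.injective (Subtype.ext h)⟩
  let z : Set ℕ → Set ℕ := fun a => Set.range (fun n => e (2 * n)) ∪ (fun n => e (2 * n + 1)) '' a
  have hz : ∀ a, z a ∈ ({z : Set ℕ | z ⊆ t ∧ z.Infinite} : Set (Set ℕ)) := by
    intro a
    refine ⟨?_, ?_⟩
    · rintro _ (⟨n, rfl⟩ | ⟨n, _, rfl⟩)
      · exact he _
      · exact he _
    · refine Set.Infinite.mono Set.subset_union_left ?_
      apply Set.infinite_range_of_injective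
      intro n m hnm
      have := hinj hnm
      omega
  have hzinj : Function.Injective z := by
    intro a b hab
    have aux : ∀ a b : Set ℕ, z a = z b → a ⊆ b := by
      intro a b hab n hn
      have : e (2 * n + 1) ∈ z b := by
        rw [← hab]
        exact Or.inr ⟨n, hn, rfl⟩
      rcases this with ⟨m, hm⟩ | ⟨m, hm, hm'⟩
      · have := hinj hm
        omega
      · have := hinj hm'
        have : m = n := by omega
        rwa [← this]
    exact Set.Subset.antisymm (aux a b hab) (aux b a hab.symm)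
  have : #(Set ℕ) ≤ #({z : Set ℕ | z ⊆ t ∧ z.Infinite} : Set (Set ℕ)) := by
    refine Cardinal.mk_le_of_injective (f := fun a => ⟨z a, hz a⟩) ?_
    intro a b hab
    exact hzinj (Subtype.ext_iff.mp hab)
  calc 𝔠 = #(Set ℕ) := by rw [Cardinal.mk_set, Cardinal.mk_nat, Cardinal.two_power_aleph0]
    _ ≤ _ := this

/-- A colouring of the sets of naturals which takes every value below every infinite set. -/
theorem exists_pick_nat :
    ∃ f : Set ℕ → (ℕ → ℕ), ∀ t : Set ℕ, t.Infinite → ∀ r : ℕ → ℕ,
      ∃ z, z ⊆ t ∧ z.Infinite ∧ f z = r := by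
  classical
  let I := {t : Set ℕ // t.Infinite} × (ℕ → ℕ)
  let C : I → Set (Set ℕ) := fun i => {z | z ⊆ i.1.1 ∧ z.Infinite}
  have hI : #I ≤ 𝔠 := by
    have h1 : #{t : Set ℕ // t.Infinite} ≤ 𝔠 := by
      calc #{t : Set ℕ // t.Infinite} ≤ #(Set ℕ) := Cardinal.mk_subtype_le _
        _ = 𝔠 := by rw [Cardinal.mk_set, Cardinal.mk_nat, Cardinal.two_power_aleph0]
    have h2 : #(ℕ → ℕ) = 𝔠 := by simp
    calc #I = #{t : Set ℕ // t.Infinite} * #(ℕ → ℕ) := Cardinal.mul_def _ _ |>.symm
      _ ≤ 𝔠 * 𝔠 := by gcongr; exact h2.le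
      _ = 𝔠 := Cardinal.continuum_mul_self
  obtain ⟨c, hc, hcC⟩ := exists_inj_choice C
    (fun i => hI.trans (continuum_le_infinite_subsets i.1.1 i.1.2))
  refine ⟨fun z => if h : ∃ i : I, c i = z then h.choose.2 else 0, ?_⟩
  intro t ht r
  refine ⟨c ⟨⟨t, ht⟩, r⟩, (hcC _).1, (hcC _).2, ?_⟩
  have hex : ∃ i : I, c i = c ⟨⟨t, ht⟩, r⟩ := ⟨_, rfl⟩
  show (if h : ∃ i : I, c i = c ⟨⟨t, ht⟩, r⟩ then h.choose.2 else 0) = r
  rw [dif_pos hex]
  have := hc hex.choose_spec
  rw [this]

theorem exists_pick_countable {α : Type u} (s : Set α) (hs : s.Countable) (hi : s.Infinite) :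
    ∃ f : Set α → (ℕ → ℕ), ∀ t : Set α, t ⊆ s → t.Infinite → ∀ r : ℕ → ℕ,
      ∃ z, z ⊆ t ∧ z.Infinite ∧ f z = r := by
  classical
  obtain ⟨f, hf⟩ := exists_pick_nat
  have := hs.to_subtype
  have := hi.to_subtype
  obtain ⟨e⟩ : Nonempty (ℕ ≃ s) := by
    have : Denumerable s := Classical.choice (nonempty_denumerable s)
    exact ⟨(Denumerable.eqv s).symm⟩
  let E : ℕ → α := fun n => (e n : α)
  have hE : Function.Injective E := fun a b h => e.injective (Subtype.ext h)
  refine ⟨fun z => f (E ⁻¹' z), ?_⟩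
  intro t hts ht r
  have h1 : (E ⁻¹' t).Infinite := by
    intro hfin
    apply ht
    have : t ⊆ E '' (E ⁻¹' t) := by
      intro a ha
      refine ⟨e.symm ⟨a, hts ha⟩, ?_, ?_⟩
      · show E _ ∈ t
        simp [E, ha]
      · simp [E]
    exact (hfin.image E).subset this
  obtain ⟨z, hz, hzi, hzr⟩ := hf _ h1 r
  refine ⟨E '' z, ?_, hzi.image hE.injOn, ?_⟩
  · rintro _ ⟨n, hn, rfl⟩
    exact hz hn
  · show f (E ⁻¹' (E '' z)) = r
    rw [Set.preimage_image_eq _ hE, hzr]

/-- For every type there is a colouring of the sets with values in `ℕ → ℕ` such that every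
infinite set has, for every value `r`, a countably infinite subset of colour `r`. -/
theorem exists_pick (α : Type u) :
    ∃ f : Set α → (ℕ → ℕ), ∀ B : Set α, B.Infinite → ∀ r : ℕ → ℕ,
      ∃ z, z ⊆ B ∧ z.Infinite ∧ z.Countable ∧ f z = r := by
  classical
  -- a maximal almost disjoint family of countably infinite sets
  let P : Set (Set (Set α)) := {S | (∀ s ∈ S, s.Countable ∧ s.Infinite) ∧
    ∀ s ∈ S, ∀ s' ∈ S, s ≠ s' → (s ∩ s').Finite}
  obtain ⟨S, hS⟩ : ∃ S, Maximal (· ∈ P) S := by
    apply zorn_subset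
    intro c hc hchain
    refine ⟨⋃₀ c, ⟨?_, ?_⟩, fun s hs => Set.subset_sUnion_of_mem hs⟩
    · rintro s ⟨T, hT, hs⟩
      exact (hc hT).1 s hs
    · rintro s ⟨T, hT, hs⟩ s' ⟨T', hT', hs'⟩ hne
      rcases hchain.total hT hT' with h | h
      · exact (hc hT').2 s (h hs) s' hs' hne
      · exact (hc hT).2 s hs s' (h hs') hne
  have hSP : S ∈ P := hS.prop
  choose! f hf using fun (s : Set α) (hs : s ∈ S) =>
    exists_pick_countable s (hSP.1 s hs).1 (hSP.1 s hs).2
  refine ⟨fun z => if h : ∃ s, s ∈ S ∧ z ⊆ s then f h.choose z else 0, ?_⟩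
  intro B hB r
  -- B meets a member of S in an infinite set
  obtain ⟨s, hs, hBs⟩ : ∃ s ∈ S, (B ∩ s).Infinite := by
    by_contra hcon
    push Not at hcon
    obtain ⟨e, he⟩ : ∃ e : ℕ ↪ B, True := by
      have := hB.to_subtype
      exact ⟨Infinite.natEmbedding B, trivial⟩
    let b : Set α := Set.range (fun n => (e n : α))
    have hbB : b ⊆ B := by
      rintro _ ⟨n, rfl⟩
      exact (e n).2
    have hbinf : b.Infinite :=
      Set.infinite_range_of_injective (fun n m h => e.injective (Subtype.ext h))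
    have hbc : b.Countable := Set.countable_range _
    have hins : insert b S ∈ P := by
      refine ⟨?_, ?_⟩
      · rintro s (rfl | hs)
        · exact ⟨hbc, hbinf⟩
        · exact hSP.1 s hs
      · rintro s (rfl | hs) s' (rfl | hs') hne
        · exact absurd rfl hne
        · exact (hcon s' hs').subset
            (Set.inter_subset_inter_left _ hbB)
        · rw [Set.inter_comm]
          exact (hcon s hs).subset
            (Set.inter_subset_inter_left _ hbB)
        · exact hSP.2 s hs s' hs' hne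
    have hle := hS.le_of_ge hins (Set.subset_insert _ _)
    have hbS : b ∈ S := hle (Set.mem_insert _ _)
    have h9 := hcon b hbS
    rw [Set.inter_eq_self_of_subset_right hbB] at h9
    exact hbinf h9
  obtain ⟨z, hz, hzi, hzr⟩ := hf s hs (B ∩ s) Set.inter_subset_right hBs r
  have hzs : z ⊆ s := hz.trans Set.inter_subset_right
  refine ⟨z, hz.trans Set.inter_subset_left, hzi, (hSP.1 s hs).1.mono hzs, ?_⟩
  have hex : ∃ s, s ∈ S ∧ z ⊆ s := ⟨s, hs, hzs⟩
  show (if h : ∃ s, s ∈ S ∧ z ⊆ s then f h.choose z else 0) = r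
  rw [dif_pos hex]
  have heq : hex.choose = s := by
    by_contra hne
    have hfin := hSP.2 _ hex.choose_spec.1 s hs hne
    exact hzi (hfin.subset (Set.subset_inter hex.choose_spec.2 hzs))
  rw [heq, hzr]

end Magi
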