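import Pool.Agent.Magi.Comp

/-! A Magidor `ℵ_ω` and square principles (for `MP_c96495_lc`). -/

open Cardinal Ordinal Set

namespace Magi

theorem type_lt_type {A A' : Set Ordinal.{0}} {a : Ordinal.{0}} (hA : A ⊆ A') (ha : a ∈ A')
    (h : ∀ x ∈ A, x < a) : Ordinal.type ((· < ·) : A → A → Prop) <
      Ordinal.type ((· < ·) : A' → A' → Prop) := by
  refine lt_of_le_of_lt ?_ (Ordinal.typein_lt_type ((· < ·) : A' → A' → Prop) ⟨a, ha⟩)
  rw [← Ordinal.type_subrel, Ordinal.type_le_iff']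
  refine ⟨⟨⟨fun x => ⟨⟨x.1, hA x.2⟩, h x.1 x.2⟩, ?_⟩, ?_⟩⟩
  · intro x y hxy
    have := congrArg (fun z => (z.1 : A').1) hxy
    exact Subtype.ext this
  · intro x y
    exact Iff.rfl

theorem exists_step {k : ℕ} {g : ℕ → ℕ} (hs : Shape k g) (hlt : ∀ n, k < n → g n < n) {j : ℕ}
    (hj : k ≤ j) : ∃ n, k < n ∧ j < n ∧ g n = j ∧ g (n + 1) = j + 1 := by
  obtain ⟨h1, h2, h3, h4⟩ := hs
  classical
  have hex : ∃ n, j + 1 ≤ g n := h4 (j + 1)
  have h5 := Nat.find_spec hex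
  have h6 : 0 < Nat.find hex := by
    rw [Nat.pos_iff_ne_zero]
    intro h0
    rw [h0, h1 0 (Nat.zero_le k)] at h5
    omega
  obtain ⟨n, hn⟩ : ∃ n, Nat.find hex = n + 1 := ⟨Nat.find hex - 1, by omega⟩
  rw [hn] at h5
  have h7 : g n < j + 1 := by
    have := Nat.find_min hex (m := n) (by omega)
    omega
  have h8 := h3 n
  have h9 : g n = j := by omega
  have h10 : g (n + 1) = j + 1 := by omega
  have h11 : k < n := by
    by_contra hcon
    push Not at hcon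
    rcases Nat.lt_or_ge n k with h | h
    · have := h1 (n + 1) h
      omega
    · have h12 := hlt (n + 1) (by omega)
      have := h1 n (by omega)
      omega
  have h12 := hlt n h11
  exact ⟨n, h11, by omega, h9, h10⟩

/-- The order type of a set of ordinals, when it is small. -/
noncomputable def ot (C : Set Ordinal.{0}) : Ordinal.{0} :=
  open Classical in
  if h : ∃ θ : Ordinal.{0}, Ordinal.lift.{1} θ = Ordinal.type ((· < ·) : C → C → Prop) then
    h.choose else 0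

theorem lift_ot {C : Set Ordinal.{0}} {l : Ordinal.{0}}
    (h : Ordinal.type ((· < ·) : C → C → Prop) ≤ Ordinal.lift.{1} l) :
    Ordinal.lift.{1} (ot C) = Ordinal.type ((· < ·) : C → C → Prop) := by
  have hex : ∃ θ : Ordinal.{0}, Ordinal.lift.{1} θ = Ordinal.type ((· < ·) : C → C → Prop) :=
    Ordinal.mem_range_lift_of_le h
  rw [ot, dif_pos hex]
  exact hex.choose_spec

theorem exists_enum (T : Set (Set Ordinal.{0})) (k : ℕ) : ∃ f : Ordinal.{0} → Set Ordinal.{0},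
    #T ≤ ℵ_ (k : Ordinal.{1}) → ∀ C ∈ T, ∃ i < ω_ (k : Ordinal.{0}), f i = C := by
  classical
  by_cases h : #T ≤ ℵ_ (k : Ordinal.{1})
  · rw [← mk_Iio_omega_nat] at h
    obtain ⟨φ⟩ := h
    refine ⟨fun i => if h : ∃ C : T, (φ C : Ordinal.{0}) = i then (h.choose : Set Ordinal.{0})
      else ∅, fun _ C hC => ⟨φ ⟨C, hC⟩, (φ ⟨C, hC⟩).2, ?_⟩⟩
    have hex : ∃ D : T, (φ D : Ordinal.{0}) = φ ⟨C, hC⟩ := ⟨_, rfl⟩
    simp only [dif_pos hex]
    have h1 := φ.injective (Subtype.ext hex.choose_spec)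
    rw [h1]
  · exact ⟨fun _ => ∅, fun h' => absurd h' h⟩

theorem square_failure (hM : IsMagidor (ℵ_ ω)) :
    ∃ k : ℕ, 1 ≤ k ∧ (𝔠 : Cardinal.{0}) ≤ ℵ_ (k : Ordinal.{0}) ∧
      ∀ N : ℕ, ∃ n, N ≤ n ∧ ¬ WeakSq n k := by
  classical
  obtain ⟨k, g, hk, hc, hs, hlt, ht⟩ := exists_type hM
  refine ⟨k, hk, hc, ?_⟩
  intro N
  obtain ⟨n, hkn, hjn, hgn, hgn1⟩ := exists_step hs hlt (le_max_right N k)
  refine ⟨n, by omega, ?_⟩
  set j := max N k with hj
  rintro ⟨S, hS⟩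
  obtain ⟨e, he, he'⟩ := exists_isEmb
  have henum := fun β : Ordinal.{0} => exists_enum (S β) k
  choose cs hcs using henum
  let G : Fin 3 → Set Ordinal.{0} → Ordinal.{0} := fun i => match i with
    | 0 => fun x => clip (sSup x)
    | 1 => fun x => clip (e (sSup x) (sInf x))
    | 2 => fun x => clip (ot (cs (sSup x) (sInf x)))
  have hG : ∀ i x, G i x < ω_ ω := by
    intro i x
    fin_cases i
    · exact clip_lt _
    · exact clip_lt _
    · exact clip_lt _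
  obtain ⟨X', _, hX', hXG', hκ', hXn'⟩ := ht.general
    ((Cardinal.mk_le_aleph0 (α := Fin 3)).trans Cardinal.aleph0_le_continuum) G hG
  obtain ⟨κ, hκ1, hκ2, hκ3⟩ := hκ' (n + 1)
  have hX := hX' (n + 1)
  have hXG := hXG' (n + 1)
  have hXn1 := hXn' (n + 1) (n + 1) le_rfl
  have hXn := hXn' (n + 1) n (Nat.le_succ n)
  rw [hgn1] at hXn1
  rw [hgn] at hXn
  set X := X' (n + 1) with hXdef
  clear_value X
  have hkX : Iio (ω_ (k : Ordinal.{0})) ⊆ X := by
    intro a ha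
    have h1 : a ∈ Iio κ := lt_of_lt_of_le ha hκ1
    rw [← hκ3] at h1
    exact h1.1
  let Y : Set Ordinal.{0} := X ∩ Iio (ω_ ((n + 1 : ℕ) : Ordinal.{0}))
  have hYX : Y ⊆ X := Set.inter_subset_left
  have hadd1 : ∀ (Z : Set Ordinal.{0}) (a : Ordinal.{0}), #Z ≤ ℵ_ (j : Ordinal.{1}) →
      #(insert a Z : Set Ordinal.{0}) ≤ ℵ_ (j : Ordinal.{1}) := by
    intro Z a hZ
    refine Cardinal.mk_insert_le.trans ?_
    refine (add_le_add hZ (Cardinal.one_le_aleph0.trans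
      (Cardinal.aleph0_le_aleph (j : Ordinal.{1})))).trans ?_
    rw [Cardinal.add_eq_self (Cardinal.aleph0_le_aleph _)]
  have hlt1 : ℵ_ (j : Ordinal.{1}) < ℵ_ ((j + 1 : ℕ) : Ordinal.{1}) :=
    Cardinal.aleph_lt_aleph.mpr (by exact_mod_cast Nat.lt_succ_self j)
  have hYbig : ¬ #Y ≤ ℵ_ (j : Ordinal.{1}) := by
    intro h
    exact absurd (hXn1 ▸ h) (not_le.mpr hlt1)
  -- initial segments
  have hinit : ∀ α ∈ Y, #(Y ∩ Iio α : Set Ordinal.{0}) ≤ ℵ_ (j : Ordinal.{1}) := by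
    rintro α ⟨hα, hαn⟩
    rw [← hXn]
    rcases lt_or_ge α (ω_ (n : Ordinal.{0})) with h | h
    · apply Cardinal.mk_le_mk_of_subset
      rintro β ⟨⟨h1, _⟩, h2⟩
      exact ⟨h1, lt_trans (h2 : β < α) h⟩
    · obtain ⟨hi, hm⟩ := he n α h hαn
      have hfwd : ∀ β ∈ Y ∩ Iio α, e α β ∈ X := by
        rintro β ⟨⟨hβ, _⟩, hβα⟩
        have hβα' : β < α := hβα
        have h1 : clip (e (sSup {β, α}) (sInf {β, α})) ∈ X :=
          hXG 1 {β, α} (by rintro x (rfl | rfl); exacts [hβ, hα]) (Set.to_countable _)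
        rwa [csSup_pair, csInf_pair, sup_of_le_right hβα'.le, inf_of_le_left hβα'.le,
          clip_eq (he' _ _)] at h1
      refine Cardinal.mk_le_of_injective
        (f := fun β => ⟨e α β.1, hfwd β.1 β.2, hm β.2.2⟩) ?_
      intro β γ hβγ
      have := congrArg Subtype.val hβγ
      exact Subtype.ext (hi β.2.2 γ.2.2 this)
  have hbdd : BddAbove Y := ⟨ω_ ((n + 1 : ℕ) : Ordinal.{0}), fun y hy => (hy.2 : y < _).le⟩
  have hYne : Y.Nonempty := by
    rw [Set.nonempty_iff_ne_empty]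
    intro h
    apply hYbig
    rw [h]
    simp
  set δ : Ordinal.{0} := sSup Y with hδ
  have hYδ : ∀ y ∈ Y, y < δ := by
    intro y hy
    refine lt_of_le_of_ne (le_csSup hbdd hy) ?_
    intro h
    apply hYbig
    have h1 : Y ⊆ insert y (Y ∩ Iio y) := by
      intro z hz
      rcases lt_or_eq_of_le (le_csSup hbdd hz) with h2 | h2
      · exact Or.inr ⟨hz, by rw [h]; exact h2⟩
      · exact Or.inl (by rw [h]; exact h2)
    exact (Cardinal.mk_le_mk_of_subset h1).trans (hadd1 _ _ (hinit y hy))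
  have hYab : ∀ z < δ, ∃ y ∈ Y, z < y := fun z hz => (lt_csSup_iff hbdd hYne).mp hz
  have hcof : ∀ Z : Set Ordinal.{0}, #Z ≤ ℵ_ (j : Ordinal.{1}) → (∀ z ∈ Z, z < δ) →
      ∃ y ∈ Y, ∀ z ∈ Z, z < y := by
    intro Z hZ hZδ
    by_contra hcon
    push Not at hcon
    apply hYbig
    have h1 : Y ⊆ ⋃ z : Z, (Y ∩ Iic z.1) := by
      intro y hy
      obtain ⟨z, hz, hyz⟩ := hcon y hy
      exact Set.mem_iUnion.mpr ⟨⟨z, hz⟩, hy, hyz⟩
    refine (Cardinal.mk_le_mk_of_subset h1).trans ((Cardinal.mk_iUnion_le _).trans ?_)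
    have h2 : (⨆ z : Z, #(Y ∩ Iic z.1 : Set Ordinal.{0})) ≤ ℵ_ (j : Ordinal.{1}) := by
      apply ciSup_le'
      intro z
      obtain ⟨y, hy, hzy⟩ := hYab z.1 (hZδ z.1 z.2)
      refine (Cardinal.mk_le_mk_of_subset ?_).trans (hinit y hy)
      rintro a ⟨ha, haz⟩
      exact ⟨ha, lt_of_le_of_lt (haz : a ≤ z.1) hzy⟩
    refine (mul_le_mul' hZ h2).trans ?_
    rw [Cardinal.mul_eq_self (Cardinal.aleph0_le_aleph _)]
  have hδn : δ < ω_ ((n + 1 : ℕ) : Ordinal.{0}) := by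
    refine lt_of_le_of_ne (csSup_le hYne (fun y hy => (hy.2 : y < _).le)) ?_
    intro h
    have h1 : Iio (ω_ ((n + 1 : ℕ) : Ordinal.{0})) ⊆ ⋃ y : Y, Iio y.1 := by
      intro a ha
      obtain ⟨y, hy, hay⟩ := hYab a (by rw [h]; exact ha)
      exact Set.mem_iUnion.mpr ⟨⟨y, hy⟩, hay⟩
    have h2 := (Cardinal.mk_le_mk_of_subset h1).trans (Cardinal.mk_iUnion_le _)
    have h3 : (⨆ y : Y, #(Iio y.1 : Set Ordinal.{0})) ≤ ℵ_ (n : Ordinal.{1}) :=
      ciSup_le' (fun y => mk_Iio_le y.2.2)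
    have h4 : #Y ≤ ℵ_ (n : Ordinal.{1}) := by
      rw [show #Y = ℵ_ ((j + 1 : ℕ) : Ordinal.{1}) from hXn1]
      exact Cardinal.aleph_le_aleph.mpr (by exact_mod_cast hjn)
    have h5 := h2.trans (mul_le_mul' h4 h3)
    rw [Cardinal.mul_eq_self (Cardinal.aleph0_le_aleph _), mk_Iio_omega_nat,
      Cardinal.aleph_le_aleph] at h5
    have h6 : n + 1 ≤ n := by exact_mod_cast h5
    omega
  have hδlim : Order.IsSuccLimit δ := by
    refine ⟨?_, ?_⟩
    · intro hmin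
      obtain ⟨y, hy⟩ := hYne
      exact absurd (hYδ y hy) (not_lt.mpr ((hmin (b := 0) zero_le).trans zero_le))
    · refine Order.isSuccPrelimit_of_succ_lt ?_
      intro a ha
      obtain ⟨y, hy, hay⟩ := hYab a ha
      exact lt_of_le_of_lt (Order.succ_le_of_lt hay) (hYδ y hy)
  obtain ⟨⟨C, hC⟩, _, hSC⟩ := hS δ hδn hδlim
  obtain ⟨hCδ, hCunb, hCtype, hCcoh⟩ := hSC C hC
  have hωnδ : ω_ (n : Ordinal.{0}) < δ := by
    by_contra hcon
    push Not at hcon
    apply hYbig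
    rw [← hXn]
    apply Cardinal.mk_le_mk_of_subset
    intro y hy
    exact ⟨hYX hy, lt_of_lt_of_le (hYδ y hy) hcon⟩
  let B : Set Ordinal.{0} := {β | β < δ ∧ ω_ (n : Ordinal.{0}) ≤ β ∧ β ∈ X ∧
    ∃ c : ℕ → Ordinal.{0}, StrictMono c ∧ (∀ i, c i ∈ C) ∧ β = ⨆ i, c i}
  -- B is unbounded
  have hBunb : ∀ z < δ, ∃ β ∈ B, z < β := by
    intro z hz
    have hnext : ∀ a : Ordinal.{0}, ∃ y c : Ordinal.{0}, a < δ →
        (y ∈ Y ∧ a < y ∧ c ∈ C ∧ y ≤ c) := by
      intro a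
      by_cases ha : a < δ
      · obtain ⟨y, hy, hay⟩ := hYab a ha
        obtain ⟨c, hc, hyc⟩ := hCunb y (hYδ y hy)
        exact ⟨y, c, fun _ => ⟨hy, hay, hc, hyc⟩⟩
      · exact ⟨0, 0, fun h => absurd h ha⟩
    choose ny nc hnyc using hnext
    let s : ℕ → Ordinal.{0} := fun i => nc^[i] (max z (ω_ (n : Ordinal.{0})))
    have hs0 : s 0 = max z (ω_ (n : Ordinal.{0})) := rfl
    have hss : ∀ i, s (i + 1) = nc (s i) := fun i => Function.iterate_succ_apply' nc i _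
    have hsδ : ∀ i, s i < δ := by
      intro i
      induction i with
      | zero => rw [hs0]; exact max_lt hz hωnδ
      | succ i ih =>
        rw [hss]
        exact hCδ (hnyc _ ih).2.2.1
    let y : ℕ → Ordinal.{0} := fun i => ny (s i)
    have hy : ∀ i, y i ∈ Y ∧ s i < y i ∧ s (i + 1) ∈ C ∧ y i ≤ s (i + 1) := by
      intro i
      rw [hss]
      exact hnyc _ (hsδ i)
    have hsmono : StrictMono s := strictMono_nat_of_lt_succ
      (fun i => lt_of_lt_of_le (hy i).2.1 (hy i).2.2.2)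
    let c : ℕ → Ordinal.{0} := fun i => s (i + 1)
    have hcmono : StrictMono c := fun a b h => hsmono (by omega)
    have hβ1 : (⨆ i, c i) = ⨆ i, y i := by
      apply le_antisymm
      · apply Ordinal.iSup_le_iff.mpr
        intro i
        exact ((hy (i + 1)).2.1.le).trans (Ordinal.le_iSup y (i + 1))
      · apply Ordinal.iSup_le_iff.mpr
        intro i
        exact (hy i).2.2.2.trans (Ordinal.le_iSup c i)
    have hβδ : (⨆ i, c i) < δ := by
      have hr1 : #(Set.range c) ≤ ℵ_ (j : Ordinal.{1}) :=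
        (Cardinal.mk_le_aleph0_iff.mpr (Set.countable_range c).to_subtype).trans
          (Cardinal.aleph0_le_aleph _)
      have hr2 : ∀ a ∈ Set.range c, a < δ := by
        rintro _ ⟨i, rfl⟩
        exact hsδ _
      obtain ⟨y', hy', hyy⟩ := hcof (Set.range c) hr1 hr2
      refine lt_of_le_of_lt (Ordinal.iSup_le_iff.mpr fun i => ?_) (hYδ y' hy')
      exact (hyy _ ⟨i, rfl⟩).le
    have hzβ : max z (ω_ (n : Ordinal.{0})) < ⨆ i, c i := by
      refine lt_of_lt_of_le ?_ (Ordinal.le_iSup c 0)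
      rw [← hs0]
      exact hsmono (by omega)
    refine ⟨⨆ i, c i, ⟨hβδ, ?_, ?_, c, hcmono, fun i => (hy i).2.2.1, rfl⟩, ?_⟩
    · exact ((le_max_right _ _).trans_lt hzβ).le
    · have h1 : clip (sSup (Set.range y)) ∈ X := hXG 0 (Set.range y)
        (by rintro _ ⟨i, rfl⟩; exact hYX (hy i).1) (Set.countable_range y)
      have h2 : sSup (Set.range y) = ⨆ i, c i := by rw [hβ1]; rfl
      rw [h2, clip_eq (lt_trans (lt_trans hβδ hδn) (omega_nat_lt _))] at h1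
      exact h1
    · exact (le_max_left _ _).trans_lt hzβ
  -- order types
  have hBtype : ∀ β ∈ B, C ∩ Iio β ∈ S β ∧ ot (C ∩ Iio β) ∈ X ∧
      ot (C ∩ Iio β) ≤ ω_ (n : Ordinal.{0}) ∧
      Ordinal.lift.{1} (ot (C ∩ Iio β)) =
        Ordinal.type ((· < ·) : (C ∩ Iio β : Set Ordinal.{0}) → (C ∩ Iio β : Set Ordinal.{0}) → Prop) := by
    rintro β ⟨hβδ, hnβ, hβX, c, hcm, hcC, hβc⟩
    have hcoh := hCcoh β hβδ ⟨c, hcm, hcC, hβc⟩
    have hβn : β < ω_ ((n + 1 : ℕ) : Ordinal.{0}) := lt_trans hβδ hδn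
    have hlim : Order.IsSuccLimit β := by
      refine ⟨?_, ?_⟩
      · intro hmin
        have h1 : c 1 ≤ β := by rw [hβc]; exact Ordinal.le_iSup c 1
        have h2 : c 0 < c 1 := hcm (by omega)
        exact absurd (lt_of_lt_of_le h2 h1) (not_lt.mpr ((hmin (b := 0) zero_le).trans zero_le))
      · refine Order.isSuccPrelimit_of_succ_lt ?_
        intro a ha
        rw [hβc] at ha ⊢
        obtain ⟨i, hi⟩ := Ordinal.lt_iSup_iff.mp ha
        exact lt_of_le_of_lt (Order.succ_le_of_lt hi)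
          (lt_of_lt_of_le (hcm (Nat.lt_succ_self i)) (Ordinal.le_iSup c (i + 1)))
    obtain ⟨_, hcard, hall⟩ := hS β hβn hlim
    have htype := (hall _ hcoh).2.2.1
    have hlift := lift_ot htype
    obtain ⟨i, hi, hiC⟩ := hcs β hcard _ hcoh
    have hiβ : i < β := lt_of_lt_of_le (lt_of_lt_of_le hi (omega_mono_nat hkn.le)) hnβ
    have hle : ot (C ∩ Iio β) ≤ ω_ (n : Ordinal.{0}) := by
      rw [← hlift] at htype
      exact Ordinal.lift_le.mp htype
    refine ⟨hcoh, ?_, hle, hlift⟩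
    have h1 : clip (ot (cs (sSup {i, β}) (sInf {i, β}))) ∈ X := hXG 2 {i, β}
      (by rintro x (rfl | rfl); exacts [hkX hi, hβX]) (Set.to_countable _)
    rw [csSup_pair, csInf_pair, sup_of_le_right hiβ.le, inf_of_le_left hiβ.le, hiC,
      clip_eq (lt_of_le_of_lt hle (omega_nat_lt _))] at h1
    exact h1
  have hBinj : ∀ β ∈ B, ∀ β' ∈ B, β < β' → ot (C ∩ Iio β) ≠ ot (C ∩ Iio β') := by
    intro β hβ β' hβ' hlt' heq
    have h1 := (hBtype β hβ).2.2.2
    have h2 := (hBtype β' hβ').2.2.2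
    rw [heq, h2] at h1
    obtain ⟨_, _, _, c, hcm, hcC, hβc⟩ := hβ'
    rw [hβc] at hlt'
    obtain ⟨i, hi⟩ := Ordinal.lt_iSup_iff.mp hlt'
    have h3 : c i < β' := by
      rw [hβc]
      exact lt_of_lt_of_le (hcm (Nat.lt_succ_self i)) (Ordinal.le_iSup c (i + 1))
    have h4 := type_lt_type (A := C ∩ Iio β) (A' := C ∩ Iio β') (a := c i)
      (Set.inter_subset_inter_right _ (Set.Iio_subset_Iio (by rw [hβc]; exact hlt'.le)))
      ⟨hcC i, h3⟩ (fun x hx => lt_trans (hx.2 : x < β) hi)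
    exact absurd h1 h4.ne'
  have hBcard : #B ≤ ℵ_ (j : Ordinal.{1}) := by
    have h1 : #B ≤ #(insert (ω_ (n : Ordinal.{0})) (X ∩ Iio (ω_ (n : Ordinal.{0}))) :
        Set Ordinal.{0}) := by
      refine Cardinal.mk_le_of_injective (f := fun β => ⟨ot (C ∩ Iio β.1), ?_⟩) ?_
      · obtain ⟨_, h2, h3, _⟩ := hBtype β.1 β.2
        rcases lt_or_eq_of_le h3 with h4 | h4
        · exact Or.inr ⟨h2, h4⟩
        · exact Or.inl h4
      · intro β β' h
        have h2 : ot (C ∩ Iio β.1) = ot (C ∩ Iio β'.1) := congrArg Subtype.val h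
        rcases lt_trichotomy β.1 β'.1 with h3 | h3 | h3
        · exact absurd h2 (hBinj _ β.2 _ β'.2 h3)
        · exact Subtype.ext h3
        · exact absurd h2.symm (hBinj _ β'.2 _ β.2 h3)
    exact h1.trans (hadd1 _ _ hXn.le)
  obtain ⟨y, hy, hyB⟩ := hcof B hBcard (fun β hβ => hβ.1)
  obtain ⟨β, hβ, hyβ⟩ := hBunb y (hYδ y hy)
  exact absurd (hyB β hβ) (not_lt.mpr hyβ.le)

end Magi
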