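import Pool.Agent.Magi.Hull2

/-! Cardinalities of sets of ordinals closed under coding functions (for `MP_c96495_lc`). -/

open Cardinal Ordinal Set

namespace Magi

/-- Injections of each `α ∈ [ω_n, ω_{n+1})` into `ω_n`. -/
def IsEmb (e : Ordinal.{0} → Ordinal.{0} → Ordinal.{0}) : Prop :=
  ∀ (n : ℕ) (α : Ordinal.{0}), ω_ (n : Ordinal.{0}) ≤ α → α < ω_ ((n + 1 : ℕ) : Ordinal.{0}) →
    Set.InjOn (e α) (Iio α) ∧ Set.MapsTo (e α) (Iio α) (Iio (ω_ (n : Ordinal.{0})))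

theorem mk_Iio_le {α : Ordinal.{0}} {n : ℕ} (h : α < ω_ ((n + 1 : ℕ) : Ordinal.{0})) :
    #(Iio α : Set Ordinal.{0}) ≤ ℵ_ (n : Ordinal.{1}) := by
  rw [Cardinal.mk_Iio_ordinal]
  have h1 : α.card < ℵ_ ((n + 1 : ℕ) : Ordinal.{0}) := by
    rw [← Cardinal.ord_aleph] at h
    exact Cardinal.lt_ord.mp h
  have h2 : α.card ≤ ℵ_ (n : Ordinal.{0}) := by
    have h3 : ((n + 1 : ℕ) : Ordinal.{0}) = (n : Ordinal.{0}) + 1 := by push_cast; rfl
    rw [h3, ← Cardinal.succ_aleph] at h1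
    exact Order.lt_succ_iff.mp h1
  have h4 : Cardinal.lift.{1} α.card ≤ Cardinal.lift.{1} (ℵ_ (n : Ordinal.{0})) :=
    Cardinal.lift_le.mpr h2
  rw [Cardinal.lift_aleph] at h4
  simpa using h4

theorem exists_isEmb : ∃ e, IsEmb e ∧ ∀ α β, e α β < ω_ ω := by
  have key : ∀ α : Ordinal.{0}, ∃ f : Ordinal.{0} → Ordinal.{0}, (∀ n : ℕ,
      ω_ (n : Ordinal.{0}) ≤ α → α < ω_ ((n + 1 : ℕ) : Ordinal.{0}) →
      Set.InjOn f (Iio α) ∧ Set.MapsTo f (Iio α) (Iio (ω_ (n : Ordinal.{0})))) ∧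
      ∀ β, f β < ω_ ω := by
    intro α
    by_cases h : ∃ n : ℕ, ω_ (n : Ordinal.{0}) ≤ α ∧ α < ω_ ((n + 1 : ℕ) : Ordinal.{0})
    · obtain ⟨n, h1, h2⟩ := h
      have h3 : #(Iio α : Set Ordinal.{0}) ≤ #(Iio (ω_ (n : Ordinal.{0})) : Set Ordinal.{0}) := by
        rw [mk_Iio_omega_nat]
        exact mk_Iio_le h2
      obtain ⟨φ⟩ := h3
      classical
      refine ⟨fun β => if hβ : β < α then (φ ⟨β, hβ⟩ : Ordinal.{0}) else 0, ?_, ?_⟩
      swap
      · intro β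
        by_cases hβ : β < α
        · simp only [dif_pos hβ]
          exact lt_trans (φ ⟨β, hβ⟩).2 (omega_nat_lt n)
        · simp only [dif_neg hβ]
          exact Ordinal.omega_pos _
      intro m hm1 hm2
      have hmn : m = n := by
        by_contra hne
        rcases Nat.lt_or_ge m n with hlt | hge
        · have : ω_ ((m + 1 : ℕ) : Ordinal.{0}) ≤ ω_ (n : Ordinal.{0}) := omega_mono_nat hlt
          exact absurd (lt_of_lt_of_le hm2 (this.trans h1)) (lt_irrefl _)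
        · have hlt : n < m := lt_of_le_of_ne hge (Ne.symm hne)
          have : ω_ ((n + 1 : ℕ) : Ordinal.{0}) ≤ ω_ (m : Ordinal.{0}) := omega_mono_nat hlt
          exact absurd (lt_of_lt_of_le h2 (this.trans hm1)) (lt_irrefl _)
      subst hmn
      constructor
      · intro β hβ γ hγ hβγ
        have hβ' : β < α := hβ
        have hγ' : γ < α := hγ
        simp only [dif_pos hβ', dif_pos hγ'] at hβγ
        have := φ.injective (Subtype.ext hβγ)
        exact congrArg Subtype.val this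
      · intro β hβ
        have hβ' : β < α := hβ
        simp only [dif_pos hβ']
        exact (φ ⟨β, hβ'⟩).2
    · refine ⟨fun _ => 0, ?_, fun _ => Ordinal.omega_pos _⟩
      intro n h1 h2
      exact absurd ⟨n, h1, h2⟩ h
  choose e he he' using key
  exact ⟨e, fun n α h1 h2 => he α n h1 h2, he'⟩

theorem mk_le_succ_of_initial {Y : Set Ordinal.{0}} {κ : Cardinal.{1}}
    (h : ∀ α ∈ Y, #(Y ∩ Iio α : Set Ordinal.{0}) ≤ κ) : #Y ≤ Order.succ κ := by
  by_contra hcon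
  push Not at hcon
  have hwf : WellFoundedLT Y := ⟨InvImage.wf Subtype.val wellFounded_lt⟩
  have hwo : IsWellOrder Y (· < ·) := inferInstance
  have h1 : (Order.succ κ).ord < Ordinal.type ((· < ·) : Y → Y → Prop) := by
    refine lt_of_lt_of_le (Cardinal.ord_lt_ord.mpr hcon) (Cardinal.ord_le_type _)
  obtain ⟨a, ha⟩ := Ordinal.typein_surj ((· < ·) : Y → Y → Prop) h1
  have h2 := Ordinal.card_typein (r := ((· < ·) : Y → Y → Prop)) a
  rw [ha, Cardinal.card_ord] at h2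
  have h3 : #{y : Y // y < a} ≤ #(Y ∩ Iio a.1 : Set Ordinal.{0}) := by
    refine Cardinal.mk_le_of_injective (f := fun y => ⟨y.1.1, y.1.2, y.2⟩) ?_
    intro y y' hyy
    have := congrArg Subtype.val hyy
    exact Subtype.ext (Subtype.ext this)
  have h4 := (h2.le.trans h3).trans (h a.1 a.2)
  exact absurd (Order.lt_succ κ) (not_lt.mpr h4)

/-- The closure properties used below. -/
structure Cod (e : Ordinal.{0} → Ordinal.{0} → Ordinal.{0}) (X : Set Ordinal.{0}) : Prop where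
  nat : Iio ω ⊆ X
  fwd : ∀ α ∈ X, ∀ β ∈ X, β < α → e α β ∈ X
  bwd : ∀ α ∈ X, ∀ β < α, e α β ∈ X → e α β < α → β ∈ X

variable {e : Ordinal.{0} → Ordinal.{0} → Ordinal.{0}} {X : Set Ordinal.{0}}

theorem Cod.step (he : IsEmb e) (hX : Cod e X) (n : ℕ) :
    #(X ∩ Iio (ω_ ((n + 1 : ℕ) : Ordinal.{0})) : Set Ordinal.{0}) ≤
      Order.succ #(X ∩ Iio (ω_ (n : Ordinal.{0})) : Set Ordinal.{0}) := by
  apply mk_le_succ_of_initial
  rintro α ⟨hα, hαn⟩
  rcases lt_or_ge α (ω_ (n : Ordinal.{0})) with h | h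
  · apply Cardinal.mk_le_mk_of_subset
    rintro β ⟨⟨h1, _⟩, h2⟩
    exact ⟨h1, lt_trans (h2 : β < α) h⟩
  · obtain ⟨hi, hm⟩ := he n α h hαn
    refine Cardinal.mk_le_of_injective
      (f := fun β => ⟨e α β.1, hX.fwd α hα β.1 β.2.1.1 β.2.2, hm β.2.2⟩) ?_
    intro β γ hβγ
    have := congrArg Subtype.val hβγ
    exact Subtype.ext (hi β.2.2 γ.2.2 this)

theorem Cod.down (he : IsEmb e) (hX : Cod e X) {n : ℕ} (hn : Iio (ω_ (n : Ordinal.{0})) ⊆ X)
    {α β : Ordinal.{0}} (hα : α ∈ X) (hαn : α < ω_ ((n + 1 : ℕ) : Ordinal.{0})) (hβ : β < α) :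
    β ∈ X := by
  rcases lt_or_ge α (ω_ (n : Ordinal.{0})) with h | h
  · exact hn (lt_trans hβ h)
  · obtain ⟨hi, hm⟩ := he n α h hαn
    have h1 : e α β < ω_ (n : Ordinal.{0}) := hm hβ
    exact hX.bwd α hα β hβ (hn h1) (lt_of_lt_of_le h1 h)

theorem Cod.full (he : IsEmb e) (hX : Cod e X) (n : ℕ)
    (h : #(X ∩ Iio (ω_ (n : Ordinal.{0})) : Set Ordinal.{0}) = ℵ_ (n : Ordinal.{1})) :
    Iio (ω_ (n : Ordinal.{0})) ⊆ X := by
  induction n with
  | zero =>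
    have : ω_ ((0 : ℕ) : Ordinal.{0}) = ω := by simp
    rw [this]
    exact hX.nat
  | succ n ih =>
    have h1 := hX.step he n
    rw [h] at h1
    have hsucc : ((n + 1 : ℕ) : Ordinal.{1}) = (n : Ordinal.{1}) + 1 := by push_cast; rfl
    have h2 : ℵ_ (n : Ordinal.{1}) ≤ #(X ∩ Iio (ω_ (n : Ordinal.{0})) : Set Ordinal.{0}) := by
      rw [hsucc, ← Cardinal.succ_aleph] at h1
      exact Order.succ_le_succ_iff.mp h1
    have h3 : #(X ∩ Iio (ω_ (n : Ordinal.{0})) : Set Ordinal.{0}) ≤ ℵ_ (n : Ordinal.{1}) := by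
      rw [← mk_Iio_omega_nat]
      exact Cardinal.mk_le_mk_of_subset Set.inter_subset_right
    have hn := ih (le_antisymm h3 h2)
    intro β hβ
    by_contra hβX
    have hsub : X ∩ Iio (ω_ ((n + 1 : ℕ) : Ordinal.{0})) ⊆ Iio β := by
      rintro α ⟨hα, hαn⟩
      show α < β
      rcases lt_trichotomy α β with h | h | h
      · exact h
      · exact absurd (h ▸ hα) hβX
      · exact absurd (hX.down he hn hα hαn h) hβX
    have h4 := Cardinal.mk_le_mk_of_subset hsub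
    rw [h] at h4
    have h5 := h4.trans (mk_Iio_le hβ)
    rw [hsucc, ← Cardinal.succ_aleph] at h5
    exact absurd (Order.lt_succ (ℵ_ (n : Ordinal.{1}))) (not_lt.mpr h5)

theorem Cod.exists_level (hX : Cod e X) (n : ℕ) :
    ∃ i ≤ n, #(X ∩ Iio (ω_ (n : Ordinal.{0})) : Set Ordinal.{0}) = ℵ_ (i : Ordinal.{1}) := by
  have h1 : ℵ₀ ≤ #(X ∩ Iio (ω_ (n : Ordinal.{0})) : Set Ordinal.{0}) := by
    have h2 : #(Iio (ω_ ((0 : ℕ) : Ordinal.{0})) : Set Ordinal.{0}) ≤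
        #(X ∩ Iio (ω_ (n : Ordinal.{0})) : Set Ordinal.{0}) := by
      apply Cardinal.mk_le_mk_of_subset
      intro a ha
      refine ⟨hX.nat ?_, lt_of_lt_of_le ha (omega_mono_nat (Nat.zero_le n))⟩
      have : ω_ ((0 : ℕ) : Ordinal.{0}) = ω := by simp
      rwa [this] at ha
    rw [mk_Iio_omega_nat] at h2
    simpa using h2
  have h3 : #(X ∩ Iio (ω_ (n : Ordinal.{0})) : Set Ordinal.{0}) ≤ ℵ_ (n : Ordinal.{1}) := by
    rw [← mk_Iio_omega_nat]
    exact Cardinal.mk_le_mk_of_subset Set.inter_subset_right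
  obtain ⟨o, ho⟩ := Cardinal.mem_range_aleph_iff.mpr h1
  rw [← ho] at h3
  have h4 : o ≤ (n : Ordinal.{1}) := Cardinal.aleph_le_aleph.mp h3
  obtain ⟨i, rfl⟩ := Ordinal.lt_omega0.mp (lt_of_le_of_lt h4 (Ordinal.natCast_lt_omega0 n))
  exact ⟨i, by exact_mod_cast h4, ho.symm⟩

end Magi
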