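import Pool.Agent.Magi.Struct

/-! The type of a Magidor `ℵ_ω` (for `MP_c96495_lc`). -/

open Cardinal Ordinal Set

namespace Magi

/-- Truncation below `ω_ω`. -/
noncomputable def clip (a : Ordinal.{0}) : Ordinal.{0} :=
  open Classical in if a < ω_ ω then a else 0

theorem clip_lt (a : Ordinal.{0}) : clip a < ω_ ω := by
  unfold clip
  split
  · assumption
  · exact Ordinal.omega_pos _

theorem clip_eq {a : Ordinal.{0}} (h : a < ω_ ω) : clip a = a := by
  unfold clip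
  rw [if_pos h]

theorem exists_const : ∃ c : (ℕ → ℕ) → Ordinal.{0}, ∀ α < (𝔠 : Cardinal.{0}).ord, ∃ r, c r = α := by
  obtain ⟨r, wo, hr⟩ := Cardinal.exists_ord_eq (ℕ → ℕ)
  have h1 : #(ℕ → ℕ) = 𝔠 := by simp
  rw [h1] at hr
  refine ⟨fun a => Ordinal.typein r a, ?_⟩
  intro α hα
  rw [hr] at hα
  obtain ⟨a, ha⟩ := Ordinal.typein_surj r hα
  exact ⟨a, ha⟩

theorem eventually_const {u : ℕ → ℕ} (hu : Monotone u) {B : ℕ} (hB : ∀ q, u q ≤ B) :
    ∃ q0, ∀ q ≥ q0, u q = u q0 := by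
  classical
  have h0 : ∃ q, u q = Nat.findGreatest (fun v => ∃ q, u q = v) B :=
    Nat.findGreatest_spec (P := fun v => ∃ q, u q = v) (hB 0) ⟨0, rfl⟩
  obtain ⟨q0, hq0⟩ := h0
  refine ⟨q0, fun q hq => le_antisymm ?_ (hu hq)⟩
  rw [hq0]
  exact Nat.le_findGreatest (hB q) ⟨q, rfl⟩

theorem exists_interval {α : Ordinal.{0}} (h : α < ω_ ω) (h0 : ω ≤ α) :
    ∃ n : ℕ, ω_ (n : Ordinal.{0}) ≤ α ∧ α < ω_ ((n + 1 : ℕ) : Ordinal.{0}) := by
  classical
  have hex : ∃ n : ℕ, α < ω_ (n : Ordinal.{0}) := exists_lt_omega_nat h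
  have h1 := Nat.find_spec hex
  rcases Nat.eq_zero_or_pos (Nat.find hex) with h2 | h2
  · rw [h2] at h1
    simp only [Nat.cast_zero, Ordinal.omega_zero] at h1
    exact absurd h1 (not_lt.mpr h0)
  · refine ⟨Nat.find hex - 1, ?_, ?_⟩
    · by_contra hcon
      push Not at hcon
      exact absurd hcon (Nat.find_min hex (by omega))
    · have : Nat.find hex - 1 + 1 = Nat.find hex := by omega
      rw [this]
      exact h1

/-- Index type of the operations used. -/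
abbrev Ops : Type := ((ℕ → ℕ) ⊕ Bool) ⊕ (ℕ × (ℕ → ℕ) × (ℕ → ℕ))

theorem mk_ops : #(Ops ⊕ Ops) ≤ 𝔠 := by
  have h1 : #(ℕ → ℕ) = 𝔠 := by simp
  have hb : #Bool ≤ 𝔠 := (Cardinal.mk_le_aleph0).trans Cardinal.aleph0_le_continuum
  have h2 : #((ℕ → ℕ) ⊕ Bool) ≤ 𝔠 := by
    rw [Cardinal.mk_sum, Cardinal.lift_id, Cardinal.lift_id, h1]
    exact (add_le_add le_rfl hb).trans (Cardinal.continuum_add_self).le
  have h3 : #(ℕ × (ℕ → ℕ) × (ℕ → ℕ)) ≤ 𝔠 := by
    simp
  have h4 : #Ops ≤ 𝔠 := by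
    rw [Cardinal.mk_sum, Cardinal.lift_id, Cardinal.lift_id]
    exact (add_le_add h2 h3).trans (Cardinal.continuum_add_self).le
  rw [Cardinal.mk_sum]
  simp only [Cardinal.lift_id]
  exact (add_le_add h4 h4).trans (Cardinal.continuum_add_self).le

theorem exists_type (hM : IsMagidor (ℵ_ ω)) :
    ∃ (k : ℕ) (g : ℕ → ℕ), 1 ≤ k ∧ (𝔠 : Cardinal.{0}) ≤ ℵ_ (k : Ordinal.{0}) ∧ Shape k g ∧
      (∀ n, k < n → g n < n) ∧ IsType k g := by
  classical
  obtain ⟨e, he, he'⟩ := exists_isEmb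
  obtain ⟨c, hc⟩ := exists_const
  -- counterexamples for the pairs which are not types
  have hbad : ∀ (k : ℕ) (g : ℕ → ℕ), ∃ F : (ℕ → ℕ) → Set Ordinal.{0} → Ordinal.{0},
      (∀ r x, F r x < ω_ ω) ∧ (¬ IsType k g →
        ¬ ∃ X : ℕ → Set Ordinal.{0}, Monotone X ∧ (∀ q, X q ⊆ Iio (ω_ ω)) ∧
        (∀ q r, ∀ x ⊆ X q, x.Countable → F r x ∈ X q) ∧
        (∀ q, ∃ κ, ω_ (k : Ordinal.{0}) ≤ κ ∧ κ < ω_ ((k + 1 : ℕ) : Ordinal.{0}) ∧
          X q ∩ Iio (ω_ ((k + 1 : ℕ) : Ordinal.{0})) = Iio κ) ∧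
        ∀ q n : ℕ, n ≤ q → #(X q ∩ Iio (ω_ (n : Ordinal.{0})) : Set Ordinal.{0}) =
          ℵ_ (g n : Ordinal.{1})) := by
    intro k g
    by_cases h : IsType k g
    · exact ⟨fun _ _ => 0, fun _ _ => Ordinal.omega_pos _, fun h' => absurd h h'⟩
    · have h' := h
      unfold IsType at h'
      rw [not_forall] at h'
      obtain ⟨F, hF⟩ := h'
      rw [Classical.not_imp] at hF
      exact ⟨F, hF.1, fun _ => hF.2⟩
  choose FB hFB hB using hbad
  let G : Ops → Set Ordinal.{0} → Ordinal.{0} := fun i => match i with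
    | Sum.inl (Sum.inl r) => fun _ => clip (c r)
    | Sum.inl (Sum.inr true) => fun x => clip (e (sSup x) (sInf x))
    | Sum.inl (Sum.inr false) => fun x =>
        clip (Function.invFunOn (e (sSup x)) (Iio (sSup x)) (sInf x))
    | Sum.inr (k, g, r) => fun x => FB k g r x
  let G' : Ops ⊕ Ops → Set Ordinal.{0} → Ordinal.{0} := fun i => match i with
    | Sum.inl i => G i
    | Sum.inr i => fun _ => G i ∅
  have hG : ∀ i x, G i x < ω_ ω := by
    rintro ((r | (b | b)) | ⟨k, g, r⟩) x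
    · exact clip_lt _
    · exact clip_lt _
    · exact clip_lt _
    · exact hFB k g r x
  have hG' : ∀ i x, G' i x < ω_ ω := by
    rintro (i | i) x
    · exact hG i x
    · exact hG i ∅
  obtain ⟨A, M0, hA, hcard, hmono0, hsub0, hAM0, hcl0, ξ, hξ, hom0⟩ :=
    exists_hull hM mk_ops G' hG'
  -- shift, so that all sets are nonempty
  obtain ⟨a0, ha0⟩ : A.Nonempty := by
    rw [Set.nonempty_iff_ne_empty]
    rintro rfl
    rw [Cardinal.mk_eq_zero] at hcard
    exact absurd hcard (Cardinal.aleph_pos _).ne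
  obtain ⟨q0, hq0⟩ := exists_lt_omega_nat (hA ha0)
  let M : ℕ → Set Ordinal.{0} := fun q => M0 (q + q0)
  have hmono : Monotone M := fun q q' h => hmono0 (by omega)
  have hsub : ∀ q, M q ⊆ Iio (ω_ ω) := fun q => hsub0 _
  have hAM : ∀ q : ℕ, A ∩ Iio (ω_ (q : Ordinal.{0})) ⊆ M q := fun q =>
    (Set.inter_subset_inter_right _ (Set.Iio_subset_Iio (omega_mono_nat (by omega)))).trans
      (hAM0 (q + q0))
  have hne : ∀ q, (M q).Nonempty := fun q =>
    ⟨a0, hmono0 (by omega : q0 ≤ q + q0) (hAM0 q0 ⟨ha0, hq0⟩)⟩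
  have hom : ∀ q, ξ ∉ M q := fun q => hom0 _
  have hcl : ∀ q i x, x ⊆ M q → x.Countable → G i x ∈ M q := by
    intro q i x hx hxc
    rcases x.eq_empty_or_nonempty with rfl | hxn
    · obtain ⟨b, hb⟩ := hne q
      exact hcl0 (q + q0) (Sum.inr i) {b} (Set.singleton_subset_iff.mpr hb)
        (Set.countable_singleton _) (Set.singleton_nonempty _)
    · exact hcl0 (q + q0) (Sum.inl i) x hx hxc hxn
  have hconst : ∀ q, ∀ α < (𝔠 : Cardinal.{0}).ord, α < ω_ ω → α ∈ M q := by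
    intro q α hα hα'
    obtain ⟨r, hr⟩ := hc α hα
    have h1 : clip (c r) ∈ M q := hcl q (Sum.inl (Sum.inl r)) ∅ (Set.empty_subset _)
      Set.countable_empty
    rwa [hr, clip_eq hα'] at h1
  have hωc : ω ≤ (𝔠 : Cardinal.{0}).ord := by
    rw [← Cardinal.ord_aleph0]
    exact Cardinal.ord_le_ord.mpr Cardinal.aleph0_le_continuum
  have hωω : (ω : Ordinal.{0}) < ω_ ω := by
    have := omega_nat_lt 0
    simpa using lt_of_le_of_lt (le_refl _) this
  have hCod : ∀ q, Cod e (M q) := by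
    intro q
    refine ⟨?_, ?_, ?_⟩
    · intro a ha
      exact hconst q a (lt_of_lt_of_le ha hωc) (lt_trans ha hωω)
    · intro α hα β hβ hβα
      have h1 : clip (e (sSup {β, α}) (sInf {β, α})) ∈ M q :=
        hcl q (Sum.inl (Sum.inr true)) {β, α}
        (by rintro x (rfl | rfl); exacts [hβ, hα]) (Set.to_countable _)
      rw [csSup_pair, csInf_pair, sup_of_le_right hβα.le, inf_of_le_left hβα.le,
        clip_eq (he' _ _)] at h1
      exact h1
    · intro α hα β hβα hmem hlt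
      have hαω : α < ω_ ω := hsub q hα
      rcases lt_or_ge α ω with h | h
      · exact hconst q β (lt_of_lt_of_le (lt_trans hβα h) hωc) (lt_trans (lt_trans hβα h) hωω)
      · obtain ⟨n, hn1, hn2⟩ := exists_interval hαω h
        obtain ⟨hi, hm⟩ := he n α hn1 hn2
        have h1 : clip (Function.invFunOn (e (sSup {e α β, α})) (Iio (sSup {e α β, α}))
            (sInf {e α β, α})) ∈ M q := hcl q (Sum.inl (Sum.inr false)) {e α β, α}
          (by rintro x (rfl | rfl); exacts [hmem, hα]) (Set.to_countable _)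
        rw [csSup_pair, csInf_pair, sup_of_le_right hlt.le, inf_of_le_left hlt.le,
          hi.leftInvOn_invFunOn hβα, clip_eq (lt_trans hβα hαω)] at h1
        exact h1
  -- levels
  have hlv : ∀ q n : ℕ, ∃ i ≤ n, #(M q ∩ Iio (ω_ (n : Ordinal.{0})) : Set Ordinal.{0}) =
      ℵ_ (i : Ordinal.{1}) := fun q n => (hCod q).exists_level n
  choose lv hlvn hlv using hlv
  have aleph_le : ∀ {i j : ℕ}, ℵ_ (i : Ordinal.{1}) ≤ ℵ_ (j : Ordinal.{1}) ↔ i ≤ j := by
    intro i j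
    rw [Cardinal.aleph_le_aleph]
    exact_mod_cast Iff.rfl
  have hlvq : ∀ n, Monotone fun q => lv q n := by
    intro n q q' hqq
    have h1 : #(M q ∩ Iio (ω_ (n : Ordinal.{0})) : Set Ordinal.{0}) ≤
        #(M q' ∩ Iio (ω_ (n : Ordinal.{0})) : Set Ordinal.{0}) :=
      Cardinal.mk_le_mk_of_subset (Set.inter_subset_inter_left _ (hmono hqq))
    rw [hlv, hlv, aleph_le] at h1
    exact h1
  have hQ : ∀ n, ∃ q0, ∀ q ≥ q0, lv q n = lv q0 n := fun n =>
    eventually_const (hlvq n) (fun q => hlvn q n)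
  choose Q hQ using hQ
  let g : ℕ → ℕ := fun n => lv (Q n) n
  have hg : ∀ N, ∃ q1, ∀ n ≤ N, ∀ q ≥ q1, lv q n = g n := by
    intro N
    refine ⟨(Finset.range (N + 1)).sup Q, ?_⟩
    intro n hn q hq
    exact hQ n q ((Finset.le_sup (Finset.mem_range.mpr (by omega))).trans hq)
  have hgn : ∀ n, g n ≤ n := fun n => hlvn _ _
  have hgmono : Monotone g := by
    apply monotone_nat_of_le_succ
    intro n
    obtain ⟨q1, hq1⟩ := hg (n + 1)
    rw [← hq1 n (by omega) q1 le_rfl, ← hq1 (n + 1) le_rfl q1 le_rfl, ← aleph_le, ← hlv, ← hlv]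
    exact Cardinal.mk_le_mk_of_subset (Set.inter_subset_inter_right _
      (Set.Iio_subset_Iio (omega_mono_nat (by omega))))
  have hgstep : ∀ n, g (n + 1) ≤ g n + 1 := by
    intro n
    obtain ⟨q1, hq1⟩ := hg (n + 1)
    rw [← hq1 n (by omega) q1 le_rfl, ← hq1 (n + 1) le_rfl q1 le_rfl, ← aleph_le]
    have h1 := (hCod q1).step he n
    rw [hlv, hlv, Cardinal.succ_aleph] at h1
    push_cast at h1 ⊢
    exact h1
  have hgunb : ∀ K, ∃ n, K ≤ g n := by
    intro K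
    by_contra hcon
    push Not at hcon
    have h1 : ∀ n : ℕ, #(A ∩ Iio (ω_ (n : Ordinal.{0})) : Set Ordinal.{0}) ≤
        ℵ_ (K : Ordinal.{1}) := by
      intro n
      have h2 : #(A ∩ Iio (ω_ (n : Ordinal.{0})) : Set Ordinal.{0}) ≤
          #(M (max n (Q n)) ∩ Iio (ω_ (n : Ordinal.{0})) : Set Ordinal.{0}) := by
        apply Cardinal.mk_le_mk_of_subset
        intro a ha
        exact ⟨hmono (le_max_left _ _) (hAM n ha), ha.2⟩
      rw [hlv, hQ n _ (le_max_right _ _)] at h2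
      exact h2.trans (aleph_le.mpr (hcon n).le)
    have h3 : A ⊆ ⋃ n : ℕ, (A ∩ Iio (ω_ (n : Ordinal.{0}))) := by
      intro a ha
      obtain ⟨n, hn⟩ := exists_lt_omega_nat (hA ha)
      exact Set.mem_iUnion.mpr ⟨n, ha, hn⟩
    have h4 : #A ≤ ℵ_ (K : Ordinal.{1}) := by
      have h5 := Cardinal.mk_iUnion_le_lift (fun n : ℕ => A ∩ Iio (ω_ (n : Ordinal.{0})))
      simp only [Cardinal.lift_uzero, Cardinal.mk_nat, Cardinal.lift_aleph0] at h5
      refine (Cardinal.mk_le_mk_of_subset h3).trans (h5.trans ?_)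
      have h6 : (⨆ n : ℕ, #(A ∩ Iio (ω_ (n : Ordinal.{0})) : Set Ordinal.{0})) ≤
          ℵ_ (K : Ordinal.{1}) := ciSup_le' h1
      calc ℵ₀ * (⨆ n : ℕ, #(A ∩ Iio (ω_ (n : Ordinal.{0})) : Set Ordinal.{0}))
          ≤ ℵ₀ * ℵ_ (K : Ordinal.{1}) := by gcongr
        _ = ℵ_ (K : Ordinal.{1}) := Cardinal.aleph0_mul_eq (Cardinal.aleph0_le_aleph _)
    rw [hcard, Cardinal.aleph_le_aleph] at h4
    exact absurd h4 (not_le.mpr (Ordinal.natCast_lt_omega0 K))
  -- the critical level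
  have hex : ∃ m : ℕ, ¬ Iio (ω_ (m : Ordinal.{0})) ⊆ ⋃ q, M q := by
    obtain ⟨m, hm⟩ := exists_lt_omega_nat hξ
    refine ⟨m, fun h => ?_⟩
    obtain ⟨q, hq⟩ := Set.mem_iUnion.mp (h hm)
    exact hom q hq
  obtain ⟨m, hm, hmin⟩ : ∃ m : ℕ, ¬ Iio (ω_ (m : Ordinal.{0})) ⊆ (⋃ q, M q) ∧
      ∀ n < m, Iio (ω_ (n : Ordinal.{0})) ⊆ ⋃ q, M q := by
    refine ⟨Nat.find hex, Nat.find_spec hex, fun n hn => ?_⟩
    have := Nat.find_min hex hn
    push Not at this
    exact this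
  have hm1 : 1 ≤ m := by
    rcases Nat.eq_zero_or_pos m with rfl | h
    · exfalso
      apply hm
      intro a ha
      refine Set.mem_iUnion.mpr ⟨0, (hCod 0).nat ?_⟩
      simpa using ha
    · exact h
  obtain ⟨k, rfl⟩ : ∃ k, m = k + 1 := ⟨m - 1, by omega⟩
  have hgk : ∀ n ≤ k, g n = n := by
    intro n hn
    have hfull : Iio (ω_ (n : Ordinal.{0})) ⊆ ⋃ q, M q := hmin n (by omega)
    have : ∃ q, lv q n = n := by
      rcases Nat.eq_zero_or_pos n with rfl | hn0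
      · exact ⟨0, Nat.le_zero.mp (hlvn 0 0)⟩
      · by_contra hcon
        push Not at hcon
        have h1 : ∀ q : ℕ, #(M q ∩ Iio (ω_ (n : Ordinal.{0})) : Set Ordinal.{0}) ≤
            ℵ_ ((n - 1 : ℕ) : Ordinal.{1}) := by
          intro q
          rw [hlv, aleph_le]
          have h2 := hlvn q n
          have h3 := hcon q
          omega
        have h3 : Iio (ω_ (n : Ordinal.{0})) ⊆ ⋃ q : ℕ, (M q ∩ Iio (ω_ (n : Ordinal.{0}))) := by
          intro a ha
          obtain ⟨q, hq⟩ := Set.mem_iUnion.mp (hfull ha)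
          exact Set.mem_iUnion.mpr ⟨q, hq, ha⟩
        have h5 := Cardinal.mk_iUnion_le_lift (fun q : ℕ => M q ∩ Iio (ω_ (n : Ordinal.{0})))
        simp only [Cardinal.lift_uzero, Cardinal.mk_nat, Cardinal.lift_aleph0] at h5
        have h6 : (⨆ q : ℕ, #(M q ∩ Iio (ω_ (n : Ordinal.{0})) : Set Ordinal.{0})) ≤
            ℵ_ ((n - 1 : ℕ) : Ordinal.{1}) := ciSup_le' h1
        have h7 : #(Iio (ω_ (n : Ordinal.{0})) : Set Ordinal.{0}) ≤
            ℵ_ ((n - 1 : ℕ) : Ordinal.{1}) := by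
          refine (Cardinal.mk_le_mk_of_subset h3).trans (h5.trans ?_)
          calc ℵ₀ * (⨆ q : ℕ, #(M q ∩ Iio (ω_ (n : Ordinal.{0})) : Set Ordinal.{0}))
              ≤ ℵ₀ * ℵ_ ((n - 1 : ℕ) : Ordinal.{1}) := by gcongr
            _ = _ := Cardinal.aleph0_mul_eq (Cardinal.aleph0_le_aleph _)
        rw [mk_Iio_omega_nat, aleph_le] at h7
        omega
    obtain ⟨q, hq⟩ := this
    have h1 : lv q n ≤ lv (max q (Q n)) n := hlvq n (le_max_left _ _)
    rw [hQ n _ (le_max_right q _), hq] at h1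
    exact le_antisymm (hgn n) h1
  have hglt : ∀ n, k < n → g n < n := by
    intro n hn
    refine lt_of_le_of_ne (hgn n) ?_
    intro h
    apply hm
    have h1 : #(M (Q n) ∩ Iio (ω_ (n : Ordinal.{0})) : Set Ordinal.{0}) = ℵ_ (n : Ordinal.{1}) := by
      rw [hlv]
      show ℵ_ ((g n : ℕ) : Ordinal.{1}) = _
      rw [h]
    have h2 := (hCod (Q n)).full he n h1
    exact ((Set.Iio_subset_Iio (omega_mono_nat hn)).trans h2).trans
      (Set.subset_iUnion M (Q n))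
  have hck : (𝔠 : Cardinal.{0}) ≤ ℵ_ (k : Ordinal.{0}) := by
    by_contra hcon
    push Not at hcon
    apply hm
    have h1 : ℵ_ ((k + 1 : ℕ) : Ordinal.{0}) ≤ 𝔠 := by
      have h3 : ((k + 1 : ℕ) : Ordinal.{0}) = (k : Ordinal.{0}) + 1 := by push_cast; rfl
      rw [h3, ← Cardinal.succ_aleph]
      exact Order.succ_le_of_lt hcon
    have h2 : ω_ ((k + 1 : ℕ) : Ordinal.{0}) ≤ (𝔠 : Cardinal.{0}).ord := by
      rw [← Cardinal.ord_aleph]
      exact Cardinal.ord_le_ord.mpr h1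
    intro a ha
    exact Set.mem_iUnion.mpr ⟨0, hconst 0 a (lt_of_lt_of_le ha h2)
      (lt_trans ha (omega_nat_lt _))⟩
  have hk1 : 1 ≤ k := by
    rcases Nat.eq_zero_or_pos k with rfl | h
    · exfalso
      have h1 : (𝔠 : Cardinal.{0}) ≤ ℵ₀ := by simpa using hck
      exact absurd h1 (not_le.mpr Cardinal.aleph0_lt_continuum)
    · exact h
  refine ⟨k, g, hk1, hck, ⟨hgk, hgmono, hgstep, hgunb⟩, hglt, ?_⟩
  by_contra hnot
  apply hB k g hnot
  choose q1 hq1 using hg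
  let qq : ℕ → ℕ := fun N => (Finset.range (N + 1)).sup q1
  have hqq : Monotone qq := by
    intro N N' h
    apply Finset.sup_mono
    intro i hi
    rw [Finset.mem_range] at hi ⊢
    omega
  have hqq1 : ∀ N, q1 N ≤ qq N := fun N => Finset.le_sup (Finset.mem_range.mpr (by omega))
  let X : ℕ → Set Ordinal.{0} := fun N => M (qq (N + (k + 1)))
  have hXlv : ∀ N n, n ≤ N + (k + 1) → lv (qq (N + (k + 1))) n = g n := fun N n hn =>
    hq1 (N + (k + 1)) n hn _ (hqq1 _)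
  have hfullk : ∀ N, Iio (ω_ (k : Ordinal.{0})) ⊆ X N := by
    intro N
    apply (hCod _).full he k
    rw [hlv, hXlv N k (by omega), hgk k le_rfl]
  refine ⟨X, fun N N' h => hmono (hqq (by omega)), fun N => hsub _, ?_, ?_, ?_⟩
  · intro N r x hx hxc
    exact hcl _ (Sum.inr (k, g, r)) x hx hxc
  · intro N
    obtain ⟨β, hβ, hβM⟩ : ∃ β, β < ω_ ((k + 1 : ℕ) : Ordinal.{0}) ∧ β ∉ X N := by
      by_contra hcon
      push Not at hcon
      exact hm (fun a ha => Set.mem_iUnion.mpr ⟨_, hcon a ha⟩)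
    let κ : Ordinal.{0} := sInf {β | β ∉ X N}
    have hκ : κ ∉ X N := csInf_mem (s := {β | β ∉ X N}) ⟨β, hβM⟩
    have hκβ : κ ≤ β := csInf_le' hβM
    refine ⟨κ, ?_, lt_of_le_of_lt hκβ hβ, ?_⟩
    · by_contra hcon
      push Not at hcon
      exact hκ (hfullk N hcon)
    · apply Set.Subset.antisymm
      · rintro a ⟨ha, hak⟩
        show a < κ
        rcases lt_trichotomy a κ with h | h | h
        · exact h
        · exact absurd (h ▸ ha) hκ
        · exact absurd ((hCod _).down he (hfullk N) ha hak h) hκ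
      · intro a ha
        refine ⟨?_, lt_trans (lt_of_lt_of_le ha hκβ) hβ⟩
        have h9 := notMem_of_lt_csInf (s := {β | β ∉ X N}) (x := a) ha (OrderBot.bddBelow _)
        simp only [Set.mem_ofPred_eq, not_not] at h9
        exact h9
  · intro N n hn
    rw [hlv, hXlv N n (by omega)]

end Magi
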